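import Pool.Agent.Helper10.RK.GoalsK
import Pool.Agent.Helper95.RK.Basics
import Pool.Agent.Helper95.Lin.Basics
import Pool.Agent.Helper19.Lin.IDT

/-! # Automorphic sums over the base (RK packet BSUMK) -/

open Complex Metric Set Filter Topology MeasureTheory
open scoped ContDiff ComplexConjugate ComplexOrder Manifold

namespace Pool.Agent.Helper2.RK

open Pool.Agent.Helper10.SP Pool.Agent.Helper95.Lin Pool.Agent.Helper16.Abund
  Pool.Agent.Helper92.Orb Pool.Agent.Helper95.RK Pool.Agent.Helper36.RK Pool.Agent.Helper10.RK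

namespace BSK

variable {b k N : ℕ}

/-- The Jacobian determinant is holomorphic. -/
theorem det_holo {n : ℕ} {U : Set (Cn n)} (hU : IsOpen U) {τ : Cn n → Cn n}
    (hτ : DifferentiableOn ℂ τ U) : DifferentiableOn ℂ (fun y => (fderiv ℂ τ y).det) U := by
  have h1 : ∀ y, (fderiv ℂ τ y).det = ∑ σ : Equiv.Perm (Fin n), Equiv.Perm.sign σ •
      ∏ i, fderiv ℂ τ y (Pi.single i 1) (σ i) := by
    intro y
    rw [ContinuousLinearMap.det, ← LinearMap.det_toMatrix', Matrix.det_apply]
    rfl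
  have h2 : DifferentiableOn ℂ (fderiv ℂ τ) U := holo_fderiv hU hτ
  have h3 : ∀ i j, DifferentiableOn ℂ (fun y => fderiv ℂ τ y (Pi.single i 1) j) U := by
    intro i j y hy
    have h4 := ((h2 y hy).clm_apply (differentiableWithinAt_const (Pi.single i (1 : ℂ))))
    exact (differentiableWithinAt_pi.1 h4) j
  have h5 : (fun y => (fderiv ℂ τ y).det) = fun y => ∑ σ : Equiv.Perm (Fin n),
      Equiv.Perm.sign σ • ∏ i, fderiv ℂ τ y (Pi.single i 1) (σ i) := funext h1
  rw [h5]
  refine DifferentiableOn.fun_sum fun σ _ => ?_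
  refine DifferentiableOn.const_smul ?_ _
  intro y hy
  exact (HasFDerivWithinAt.finsetProd (u := Finset.univ)
    (g := fun (i : Fin n) (y : Cn n) => fderiv ℂ τ y (Pi.single i 1) (σ i))
    fun i _ => (h3 i (σ i) y hy).hasFDerivWithinAt).differentiableWithinAt

theorem detA_holo {U : Set (Cn b)} {A : Cn b → Matrix (Fin k) (Fin k) ℂ}
    (hA : ∀ i j, DifferentiableOn ℂ (fun z => A z i j) U) :
    DifferentiableOn ℂ (fun z => (A z).det) U := by
  have h5 : (fun y => (A y).det) = fun y => ∑ σ : Equiv.Perm (Fin k),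
      Equiv.Perm.sign σ • ∏ i, A y (σ i) i := funext fun y => Matrix.det_apply _
  rw [h5]
  refine DifferentiableOn.fun_sum fun σ _ => ?_
  refine DifferentiableOn.const_smul ?_ _
  intro y hy
  exact (HasFDerivWithinAt.finsetProd (u := Finset.univ)
    (g := fun (i : Fin k) (y : Cn b) => A y (σ i) i)
    fun i _ => (hA (σ i) i y hy).hasFDerivWithinAt).differentiableWithinAt

theorem JtK_holo {U : Set (Cn b)} (hU : IsOpen U) {t : TriK b k} (hg : DifferentiableOn ℂ t.g U)
    (ha : ∀ i j, DifferentiableOn ℂ (fun z => t.A z i j) U) : DifferentiableOn ℂ (JtK t) U :=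
  (det_holo hU hg).mul (detA_holo ha)

/-- Identity theorem for maps. -/
theorem ident {U : Set (Cn b)} (hU : IsOpen U) (hUc : IsPreconnected U) {f g : Cn b → Cn b}
    (hf : DifferentiableOn ℂ f U) (hg : DifferentiableOn ℂ g U) {x : Cn b} (hx : x ∈ U)
    (h : f =ᶠ[𝓝 x] g) : ∀ z ∈ U, f z = g z := by
  intro z hz
  have := Pool.Agent.Helper19.Lin.idt U hU hUc (fun z => f z - g z) (hf.sub hg) x hx
    (h.mono fun y hy => sub_eq_zero.mpr hy) z hz
  exact sub_eq_zero.mp this

variable {c : Fin N → Cn b} {R : ℝ} {P : Set (Cn b) → TriK b k → Prop} {Φ : Cn b → ℝ}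
  {Hf : Cn b → Matrix (Fin k) (Fin k) ℂ} {C : ℝ}

theorem ball_eq (hA : AFolK c R P Φ Hf C) {i j : Fin N} {z : Cn b} (hi : z ∈ ball (c i) 2)
    (hj : z ∈ ball (c j) 2) : i = j := by
  by_contra hne
  have h1 := hA.sep i j hne
  have h2 := hA.Rge
  have h3 := hA.Cge
  have h4 : ‖c i - c j‖ < 4 := by
    rw [mem_ball_iff_norm] at hi hj
    calc ‖c i - c j‖ = ‖(z - c j) - (z - c i)‖ := by congr 1; abel
      _ ≤ ‖z - c j‖ + ‖z - c i‖ := norm_sub_le _ _
      _ < 4 := by linarith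
  nlinarith

theorem bsumK_eq (hA : AFolK c R P Φ Hf C) {n : Fin N → ℕ} {s : ∀ i, Fin (n i) → TriK b k} {M : ℕ}
    {F : Cn b → ℂ} {i : Fin N} {z : Cn b} (hi : z ∈ ball (c i) 2) :
    bsumK c n s M F z = ∑ k, F ((s i k).g z) * JtK (s i k) z ^ M := by
  unfold bsumK
  rw [Finset.sum_eq_single i]
  · rw [indicator_of_mem hi]
  · intro j _ hj
    rw [indicator_of_notMem]
    intro hz
    exact hj (ball_eq hA hz hi)
  · intro h; exact absurd (Finset.mem_univ i) h

/-- The chain rule for `JtK`. -/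
theorem JtK_comp (hA : AFolK c R P Φ Hf C) {U U' : Set (Cn b)} {t s : TriK b k} (ht : P U t)
    (hs : P U' s) {z : Cn b} (hz : z ∈ U') (hsz : s.g z ∈ U) :
    JtK (t.comp s) z = JtK t (s.g z) * JtK s z := by
  obtain ⟨hUo, -, ⟨htg, -, -⟩, -⟩ := hA.holo U t ht
  obtain ⟨hU'o, -, ⟨hsg, -, -⟩, -⟩ := hA.holo U' s hs
  have h1 : HasFDerivAt t.g (fderiv ℂ t.g (s.g z)) (s.g z) :=
    (htg.differentiableAt (hUo.mem_nhds hsz)).hasFDerivAt
  have h2 : HasFDerivAt s.g (fderiv ℂ s.g z) z :=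
    (hsg.differentiableAt (hU'o.mem_nhds hz)).hasFDerivAt
  have h3 : fderiv ℂ (t.comp s).g z = (fderiv ℂ t.g (s.g z)).comp (fderiv ℂ s.g z) :=
    (h1.comp z h2).fderiv
  unfold JtK
  rw [h3]
  have h4 : ((fderiv ℂ t.g (s.g z)).comp (fderiv ℂ s.g z)).det =
      (fderiv ℂ t.g (s.g z)).det * (fderiv ℂ s.g z).det := by
    exact LinearMap.det_comp _ _
  rw [h4]
  simp only [TriK.comp, Matrix.det_mul]
  ring

theorem JtK_congr {t t' : TriK b k} {U : Set (Cn b)} (hU : IsOpen U) (h : t.EqOn t' U) {z : Cn b}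
    (hz : z ∈ U) : JtK t z = JtK t' z := by
  unfold JtK
  have h1 : t.g =ᶠ[𝓝 z] t'.g := by
    filter_upwards [hU.mem_nhds hz] with y hy
    exact (h y hy).1
  rw [h1.fderiv_eq, (h z hz).2.1]

/-- Extension of germs: a base map after a germ is a base map near the point. -/
theorem germ (hA : AFolK c R P Φ Hf C) {n : Fin N → ℕ} {s : ∀ i, Fin (n i) → TriK b k}
    (hG : GClK c P n s) {i j : Fin N} {U : Set (Cn b)} {t : TriK b k} (ht : P U t) {x : Cn b}
    (hxU : x ∈ U) (hxi : x ∈ ball (c i) 2) (htx : t.g x ∈ ball (c j) 2) (l : Fin (n j))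
    (hl : (s j l).g (t.g x) ∈ Bd c 2) :
    ∃ k : Fin (n i), ((s i k).g =ᶠ[𝓝 x] fun y => (s j l).g (t.g y)) ∧
      ∀ M, JMK c P M → JtK (s i k) x ^ M = (JtK (s j l) (t.g x) * JtK t x) ^ M := by
  have h24 : ∀ i, ball (c i) 2 ⊆ ball (c i) 4 := fun i => ball_subset_ball (by norm_num)
  obtain ⟨hUo, -, ⟨htg, -, -⟩, -⟩ := hA.holo U t ht
  have hs := (hG.big j l).1
  have hU''o : IsOpen (U ∩ t.g ⁻¹' ball (c j) 4) :=
    htg.continuousOn.isOpen_inter_preimage hUo isOpen_ball
  have hxU'' : x ∈ U ∩ t.g ⁻¹' ball (c j) 4 := ⟨hxU, h24 j htx⟩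
  have hcomp := hA.comp _ _ (U ∩ t.g ⁻¹' ball (c j) 4) _ _ hs ht hU''o inter_subset_left
    (fun y hy => hy.2)
  obtain ⟨u, U', hu, hU'o, hxU', hU'sub, hueq⟩ := hA.ext i x hxi _ _ hcomp hxU'' hl
  have hubig : BigK c P i u := by
    refine ⟨hu, x, hxi, ?_⟩
    rw [(hueq x hxU').1]; exact hl
  obtain ⟨k, hk⟩ := hG.cov i u hubig
  refine ⟨k, ?_, ?_⟩
  · filter_upwards [hU'o.mem_nhds hxU', isOpen_ball.mem_nhds (h24 i hxi)] with y hy hy4
    rw [← hk y hy4]
    exact (hueq y hy).1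
  · intro M hM
    have h1 := hM.1 i u (s i k) hubig (hG.big i k) hk x (h24 i hxi)
    rw [← h1, JtK_congr hU'o hueq hxU', JtK_comp hA hs ht hxU (h24 j htx)]

/-- The base maps are determined by their germs. -/
theorem uniq (hA : AFolK c R P Φ Hf C) {n : Fin N → ℕ} {s : ∀ i, Fin (n i) → TriK b k}
    (hG : GClK c P n s) {i : Fin N} {k l : Fin (n i)} {x : Cn b} (hx : x ∈ ball (c i) 2)
    (h : (s i k).g =ᶠ[𝓝 x] (s i l).g) : k = l := by
  refine hG.dist i k l ?_
  obtain ⟨-, -, ⟨h1, -, -⟩, -⟩ := hA.holo _ _ (hG.big i k).1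
  obtain ⟨-, -, ⟨h2, -, -⟩, -⟩ := hA.holo _ _ (hG.big i l).1
  exact ident isOpen_ball (convex_ball _ _).isPreconnected h1 h2
    (ball_subset_ball (by norm_num) hx) h

end BSK

open BSK in
/-- RK packet BSUMK. -/
theorem bsumk : S_BSUMK := by
  intro b k N c R P Φ Hf C hA n s hG M hM F K hF hK hKB hF0
  constructor
  · -- smoothness
    intro z hz
    obtain ⟨i, hi⟩ := mem_iUnion.mp hz
    have hev : Pool.Agent.Helper10.RK.bsumK c n s M F =ᶠ[𝓝 z]
        fun y => ∑ k, F ((s i k).g y) * JtK (s i k) y ^ M := by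
      filter_upwards [isOpen_ball.mem_nhds hi] with y hy
      exact bsumK_eq hA hy
    refine ContDiffAt.contDiffWithinAt (ContDiffAt.congr_of_eventuallyEq ?_ hev)
    refine ContDiffAt.sum fun k _ => ?_
    obtain ⟨-, -, ⟨hg, ha, -⟩, -⟩ := hA.holo _ _ (hG.big i k).1
    have hz4 : z ∈ ball (c i) 4 := ball_subset_ball (by norm_num) hi
    have h1 : ContDiffAt ℝ ∞ (s i k).g z :=
      (holo_contDiffOn_real isOpen_ball hg).contDiffAt (isOpen_ball.mem_nhds hz4)
    have h2 : ContDiffAt ℝ ∞ (JtK (s i k)) z :=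
      (holo_contDiffOn_real isOpen_ball (JtK_holo isOpen_ball hg ha)).contDiffAt
        (isOpen_ball.mem_nhds hz4)
    exact (hF.contDiffAt.comp z h1).mul (h2.pow M)
  · -- automorphy
    rintro U t ⟨ht, hUB, hmaps⟩ z hz
    obtain ⟨i, hi⟩ := mem_iUnion.mp (hUB hz)
    obtain ⟨j, hj⟩ := mem_iUnion.mp (hmaps hz)
    rw [bsumK_eq hA hi, bsumK_eq hA hj]
    have hFB : ∀ x, x ∉ Bd c 2 → F x = 0 := fun x hx => hF0 x fun h => hx (hKB h)
    -- the inverse germ
    obtain ⟨r, U', U'', hr, hyU', hU''o, hzU'', hU''U, hmaps', hrt⟩ := hA.inv U t ht z hz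
    have hrz : r.g (t.g z) = z := (hrt z hzU'').1
    obtain ⟨hUo, -, ⟨htg, -, -⟩, -⟩ := hA.holo U t ht
    obtain ⟨hU'o, -, ⟨hrg, -, -⟩, -⟩ := hA.holo U' r hr
    have htc : ContinuousAt t.g z := (htg.differentiableAt (hUo.mem_nhds hz)).continuousAt
    have hrc : ContinuousAt r.g (t.g z) :=
      (hrg.differentiableAt (hU'o.mem_nhds hyU')).continuousAt
    have hrtz : (fun y => r.g (t.g y)) =ᶠ[𝓝 z] fun y => y := by
      filter_upwards [hU''o.mem_nhds hzU''] with y hy
      exact (hrt y hy).1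
    -- the other composition
    have htry : (fun y => t.g (r.g y)) =ᶠ[𝓝 (t.g z)] fun y => y := by
      obtain ⟨q, V', V'', hq, -, hV''o, hyV'', -, -, hqr⟩ := hA.inv U' r hr (t.g z) hyU'
      have h1 : (fun y => q.g (r.g y)) =ᶠ[𝓝 (t.g z)] fun y => y := by
        filter_upwards [hV''o.mem_nhds hyV''] with y hy
        exact (hqr y hy).1
      -- `q = t` near `z`
      have h2 : q.g =ᶠ[𝓝 z] t.g := by
        filter_upwards [htc.eventually h1, hrtz] with y hy1 hy2
        have hy2' : r.g (t.g y) = y := hy2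
        have hy1' : q.g (r.g (t.g y)) = t.g y := hy1
        rw [hy2'] at hy1'
        exact hy1'
      have h3 : ∀ᶠ y in 𝓝 (t.g z), q.g (r.g y) = t.g (r.g y) := by
        have : Tendsto r.g (𝓝 (t.g z)) (𝓝 z) := by
          have := hrc.tendsto
          rwa [hrz] at this
        exact this.eventually h2
      filter_upwards [h1, h3] with y hy1 hy3
      rw [← hy3]; exact hy1
    classical
    -- the bijection
    have hsel := fun (l : Fin (n j)) (hl : (s j l).g (t.g z) ∈ Bd c 2) =>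
      germ hA hG ht hz hi hj l hl
    choose κ hκ1 hκ2 using hsel
    have hval : ∀ l (hl : (s j l).g (t.g z) ∈ Bd c 2),
        (s i (κ l hl)).g z = (s j l).g (t.g z) := fun l hl => (hκ1 l hl).self_of_nhds
    have hL : ∑ l, F ((s j l).g (t.g z)) * JtK (s j l) (t.g z) ^ M =
        ∑ l ∈ Finset.univ.filter (fun l => (s j l).g (t.g z) ∈ Bd c 2),
          F ((s j l).g (t.g z)) * JtK (s j l) (t.g z) ^ M := by
      rw [Finset.sum_filter]
      refine Finset.sum_congr rfl fun l _ => ?_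
      split_ifs with h
      · rfl
      · rw [hFB _ h, zero_mul]
    have hK' : ∑ k, F ((s i k).g z) * JtK (s i k) z ^ M =
        ∑ k ∈ Finset.univ.filter (fun k => (s i k).g z ∈ Bd c 2),
          F ((s i k).g z) * JtK (s i k) z ^ M := by
      rw [Finset.sum_filter]
      refine Finset.sum_congr rfl fun l _ => ?_
      split_ifs with h
      · rfl
      · rw [hFB _ h, zero_mul]
    rw [hL, hK', Finset.sum_mul]
    symm
    refine Finset.sum_bij (fun l hl => κ l (Finset.mem_filter.mp hl).2) ?_ ?_ ?_ ?_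
    · intro l hl
      have hl' := (Finset.mem_filter.mp hl).2
      simp only [Finset.mem_filter, Finset.mem_univ, true_and]
      rw [hval l hl']; exact hl'
    · intro l hl l' hl' he
      replace hl := (Finset.mem_filter.mp hl).2
      replace hl' := (Finset.mem_filter.mp hl').2
      have h1 := hκ1 l hl
      have h2 := hκ1 l' hl'
      have he' : κ l hl = κ l' hl' := he
      rw [he'] at h1
      have h3 : (fun y => (s j l).g (t.g y)) =ᶠ[𝓝 z] fun y => (s j l').g (t.g y) :=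
        h1.symm.trans h2
      have h4 : ∀ᶠ y in 𝓝 (t.g z), (s j l).g (t.g (r.g y)) = (s j l').g (t.g (r.g y)) := by
        have : Tendsto r.g (𝓝 (t.g z)) (𝓝 z) := by
          have := hrc.tendsto
          rwa [hrz] at this
        exact this.eventually h3
      refine uniq hA hG hj ?_
      filter_upwards [h4, htry] with y hy1 hy2
      have hy2' : t.g (r.g y) = y := hy2
      rw [hy2'] at hy1
      exact hy1
    · intro k hk
      simp only [Finset.mem_filter, Finset.mem_univ, true_and] at hk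
      have hk' : (s i k).g (r.g (t.g z)) ∈ Bd c 2 := by rw [hrz]; exact hk
      have hri : r.g (t.g z) ∈ ball (c i) 2 := by rw [hrz]; exact hi
      obtain ⟨l, hl1, -⟩ := germ hA hG hr hyU' hj hri k hk'
      have hlz : (s j l).g (t.g z) = (s i k).g z := by
        have := hl1.self_of_nhds
        simp only at this
        rwa [hrz] at this
      have hlB : (s j l).g (t.g z) ∈ Bd c 2 := by rw [hlz]; exact hk
      refine ⟨l, by simp only [Finset.mem_filter, Finset.mem_univ, true_and]; exact hlB, ?_⟩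
      refine uniq hA hG hi ?_
      have h1 := hκ1 l hlB
      have h2 : ∀ᶠ y in 𝓝 z, (s j l).g (t.g y) = (s i k).g (r.g (t.g y)) := htc.eventually hl1
      filter_upwards [h1, h2, hrtz] with y hy1 hy2 hy3
      have hy3' : r.g (t.g y) = y := hy3
      rw [hy3'] at hy2
      rw [← hy2]; exact hy1
    · intro l hl
      replace hl := (Finset.mem_filter.mp hl).2
      rw [hval l hl, hκ2 l hl M hM, mul_pow, mul_assoc]

end Pool.Agent.Helper2.RK
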