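import Pool.Agent.Helper15.RK.GoalsF

/-! Packet ALGH: nonpositive holomorphic sectional curvature implies nonpositive scalar curvature. -/

open Complex Matrix
open scoped ComplexConjugate ComplexOrder Matrix MatrixOrder

namespace Pool.Agent.Helper2.RK

open Pool.Agent.Helper95.Lin Pool.Agent.Helper15.RK

variable {k : ℕ}

/-- The form of degree `(2, 2)` given by `C`. -/
noncomputable def F4 (C : Fin k → Fin k → Fin k → Fin k → ℂ) (x y z w : Cn k) : ℂ :=
  ∑ α, ∑ β, ∑ γ, ∑ δ, x α * conj (y β) * z γ * conj (w δ) * C α β γ δ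

/-- The Kähler symmetries. -/
structure KSym (C : Fin k → Fin k → Fin k → Fin k → ℂ) : Prop where
  s1 : ∀ α β γ δ, C α β γ δ = C γ β α δ
  s2 : ∀ α β γ δ, conj (C α β γ δ) = C β α δ γ

variable {C : Fin k → Fin k → Fin k → Fin k → ℂ}

lemma sum4 {g : Fin k → Fin k → Fin k → Fin k → ℂ} :
    ∑ α, ∑ β, ∑ γ, ∑ δ, g α β γ δ = ∑ γ, ∑ β, ∑ α, ∑ δ, g α β γ δ := by
  rw [Finset.sum_comm]
  rw [Finset.sum_comm (f := fun γ β => ∑ α, ∑ δ, g α β γ δ)]
  exact Finset.sum_congr rfl fun β _ => Finset.sum_comm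

lemma F4_add1 (x x' y z w : Cn k) : F4 C (x + x') y z w = F4 C x y z w + F4 C x' y z w := by
  unfold F4
  simp only [← Finset.sum_add_distrib]
  refine Finset.sum_congr rfl fun α _ => Finset.sum_congr rfl fun β _ =>
    Finset.sum_congr rfl fun γ _ => Finset.sum_congr rfl fun δ _ => ?_
  rw [Pi.add_apply]; ring

lemma F4_smul1 (a : ℂ) (x y z w : Cn k) : F4 C (a • x) y z w = a * F4 C x y z w := by
  unfold F4
  simp only [Finset.mul_sum]
  refine Finset.sum_congr rfl fun α _ => Finset.sum_congr rfl fun β _ =>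
    Finset.sum_congr rfl fun γ _ => Finset.sum_congr rfl fun δ _ => ?_
  rw [Pi.smul_apply, smul_eq_mul]; ring

lemma F4_13 (h : KSym C) (x y z w : Cn k) : F4 C x y z w = F4 C z y x w := by
  unfold F4
  rw [sum4]
  refine Finset.sum_congr rfl fun α _ => Finset.sum_congr rfl fun β _ =>
    Finset.sum_congr rfl fun γ _ => Finset.sum_congr rfl fun δ _ => ?_
  rw [h.s1 γ β α δ]; ring

lemma F4_conj (h : KSym C) (x y z w : Cn k) : conj (F4 C x y z w) = F4 C y x w z := by
  unfold F4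
  simp only [map_sum, map_mul, Complex.conj_conj, h.s2]
  rw [Finset.sum_comm]
  refine Finset.sum_congr rfl fun α _ => Finset.sum_congr rfl fun β _ => ?_
  rw [Finset.sum_comm]
  refine Finset.sum_congr rfl fun γ _ => Finset.sum_congr rfl fun δ _ => ?_
  ring

lemma F4_24 (h : KSym C) (x y z w : Cn k) : F4 C x y z w = F4 C x w z y := by
  rw [← F4_conj h, F4_13 h, F4_conj h]

lemma F4_add3 (h : KSym C) (x y z z' w : Cn k) :
    F4 C x y (z + z') w = F4 C x y z w + F4 C x y z' w := by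
  rw [F4_13 h, F4_add1, F4_13 h z, F4_13 h z']

lemma F4_smul3 (h : KSym C) (a : ℂ) (x y z w : Cn k) :
    F4 C x y (a • z) w = a * F4 C x y z w := by
  rw [F4_13 h, F4_smul1, F4_13 h z]

lemma F4_add2 (h : KSym C) (x y y' z w : Cn k) :
    F4 C x (y + y') z w = F4 C x y z w + F4 C x y' z w := by
  rw [← F4_conj h, F4_add1, map_add, F4_conj h, F4_conj h]

lemma F4_smul2 (h : KSym C) (a : ℂ) (x y z w : Cn k) :
    F4 C x (a • y) z w = conj a * F4 C x y z w := by
  rw [← F4_conj h, F4_smul1, map_mul, F4_conj h]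

lemma F4_add4 (h : KSym C) (x y z w w' : Cn k) :
    F4 C x y z (w + w') = F4 C x y z w + F4 C x y z w' := by
  rw [F4_24 h, F4_add2 h, F4_24 h x w, F4_24 h x w']

lemma F4_smul4 (h : KSym C) (a : ℂ) (x y z w : Cn k) :
    F4 C x y z (a • w) = conj a * F4 C x y z w := by
  rw [F4_24 h, F4_smul2 h, F4_24 h x w]

lemma F4_exp (h : KSym C) (x y : Cn k) (a : ℂ) :
    F4 C (x + a • y) (x + a • y) (x + a • y) (x + a • y) =
      F4 C x x x x + 2 * a * F4 C y x x x + 2 * conj a * F4 C x y x x + a ^ 2 * F4 C y x y x +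
      conj a ^ 2 * F4 C x y x y + 4 * a * conj a * F4 C x x y y +
      2 * a ^ 2 * conj a * F4 C y y y x + 2 * a * conj a ^ 2 * F4 C x y y y +
      a ^ 2 * conj a ^ 2 * F4 C y y y y := by
  simp only [F4_add1, F4_smul1, F4_add2 h, F4_smul2 h, F4_add3 h, F4_smul3 h, F4_add4 h,
    F4_smul4 h]
  rw [F4_13 h x x y x, F4_24 h x x x y, F4_13 h y x x y, F4_24 h x y y x, F4_24 h y x y y,
    F4_13 h y y x y, F4_13 h y y x x, F4_24 h x y y x]
  ring

lemma F4_exp2 (h : KSym C) (x y z : Cn k) (a : ℂ) :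
    F4 C (x + a • y) (x + a • y) z z =
      F4 C x x z z + a * F4 C y x z z + conj a * F4 C x y z z + a * conj a * F4 C y y z z := by
  simp only [F4_add1, F4_smul1, F4_add2 h, F4_smul2 h]
  ring

/-- The fourth roots of unity. -/
noncomputable def e4 : Fin 4 → ℂ := ![1, I, -1, -I]

lemma avg1 (h : KSym C) (x y : Cn k) :
    ∑ j, F4 C (x + e4 j • y) (x + e4 j • y) (x + e4 j • y) (x + e4 j • y) =
      4 * (F4 C x x x x + F4 C y y y y + 4 * F4 C x x y y) := by
  have h2 : I ^ 2 = -1 := I_sq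
  have h3 : I ^ 3 = -I := by rw [pow_succ, I_sq]; ring
  have h4 : I ^ 4 = 1 := I_pow_four
  rw [Fin.sum_univ_four]
  simp only [F4_exp h, e4, Matrix.cons_val_zero, Matrix.cons_val_one, Matrix.cons_val,
    map_one, map_neg, Complex.conj_I]
  ring_nf
  rw [h2, h4]
  ring

lemma avg2 (h : KSym C) (x y z : Cn k) :
    ∑ j, F4 C (x + e4 j • y) (x + e4 j • y) z z = 4 * (F4 C x x z z + F4 C y y z z) := by
  have h2 : I ^ 2 = -1 := I_sq
  rw [Fin.sum_univ_four]
  simp only [F4_exp2 h, e4, Matrix.cons_val_zero, Matrix.cons_val_one, Matrix.cons_val,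
    map_one, map_neg, Complex.conj_I]
  ring_nf
  rw [h2]
  ring

/-- The average of the quartic form over a torus. -/
noncomputable def Psi {ι : Type*} (C : Fin k → Fin k → Fin k → Fin k → ℂ) (q : ι → Cn k)
    (S : Finset ι) (x : Cn k) : ℂ :=
  F4 C x x x x + 4 * ∑ i ∈ S, F4 C x x (q i) (q i) +
    2 * ∑ i ∈ S, ∑ l ∈ S, F4 C (q i) (q i) (q l) (q l) - ∑ i ∈ S, F4 C (q i) (q i) (q i) (q i)

lemma Psi_insert {ι : Type*} [DecidableEq ι] (h : KSym C) (q : ι → Cn k) (S : Finset ι) (n : ι)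
    (hn : n ∉ S) (x : Cn k) :
    ∑ j, Psi C q S (x + e4 j • q n) = 4 * Psi C q (insert n S) x := by
  unfold Psi
  rw [Finset.sum_sub_distrib, Finset.sum_add_distrib, Finset.sum_add_distrib, avg1 h,
    ← Finset.mul_sum, Finset.sum_comm]
  simp only [avg2 h, Finset.sum_insert hn, Finset.sum_const, Finset.card_univ, Fintype.card_fin,
    nsmul_eq_mul, Finset.sum_add_distrib, ← Finset.mul_sum]
  have h1 : ∑ i ∈ S, F4 C (q i) (q i) (q n) (q n) = ∑ i ∈ S, F4 C (q n) (q n) (q i) (q i) :=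
    Finset.sum_congr rfl fun i _ => by rw [F4_13 h, F4_24 h]
  rw [h1]
  push_cast
  ring

lemma Psi_le {ι : Type*} (h : KSym C) (hf : ∀ s, (F4 C s s s s).re ≤ 0) (q : ι → Cn k)
    (S : Finset ι) : ∀ x, (Psi C q S x).re ≤ 0 := by
  classical
  induction S using Finset.induction_on with
  | empty =>
    intro x
    unfold Psi
    simpa using hf x
  | insert n S hn ih =>
    intro x
    have h1 := Psi_insert h q S n hn x
    have h2 : (∑ j, Psi C q S (x + e4 j • q n)).re ≤ 0 := by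
      rw [Complex.re_sum]
      exact Finset.sum_nonpos fun j _ => ih _
    rw [h1] at h2
    have h3 : (4 * Psi C q (insert n S) x).re = 4 * (Psi C q (insert n S) x).re := by
      simp
    rw [h3] at h2
    linarith

lemma sum_le {ι : Type*} [Fintype ι] (h : KSym C) (hf : ∀ s, (F4 C s s s s).re ≤ 0)
    (q : ι → Cn k) :
    2 * (∑ i, ∑ l, F4 C (q i) (q i) (q l) (q l)).re ≤
      ∑ i, (F4 C (q i) (q i) (q i) (q i)).re := by
  have h1 := Psi_le h hf q Finset.univ 0
  unfold Psi at h1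
  have h0 : ∀ y z w, F4 C 0 y z w = 0 := by
    intro y z w
    have := F4_smul1 (C := C) 0 0 y z w
    rw [zero_smul, zero_mul] at this
    exact this
  simp only [h0, Finset.sum_const_zero, mul_zero, zero_add, add_zero, Complex.sub_re] at h1
  rw [Complex.re_sum (s := Finset.univ) (f := fun i => F4 C (q i) (q i) (q i) (q i))] at h1
  have h3 : (2 * ∑ i, ∑ l, F4 C (q i) (q i) (q l) (q l)).re =
      2 * (∑ i, ∑ l, F4 C (q i) (q i) (q l) (q l)).re := by simp
  rw [h3] at h1
  linarith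

lemma polar2 (B : Cn k → Cn k → ℂ) (ha1 : ∀ x x' y, B (x + x') y = B x y + B x' y)
    (ha2 : ∀ x y y', B x (y + y') = B x y + B x y') (hs1 : ∀ (a : ℂ) x y, B (a • x) y = a * B x y)
    (hs2 : ∀ (a : ℂ) x y, B x (a • y) = conj a * B x y) (h0 : ∀ x, B x x = 0) (x y : Cn k) :
    B x y = 0 := by
  have h1 := h0 (x + y)
  have h2 := h0 (x + I • y)
  rw [ha1, ha2, ha2, h0 x, h0 y] at h1
  rw [ha1, ha2, ha2, hs1, hs1, hs2, hs2, h0 x, h0 y, Complex.conj_I] at h2
  linear_combination (1 / 2 : ℂ) * h1 + (I / 2) * h2 - (B y x - B x y) / 2 * I_sq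

lemma zero_of (h : KSym C) (hf : ∀ s, F4 C s s s s = 0) (α β γ δ : Fin k) :
    C α β γ δ = 0 := by
  have h1 : ∀ x y, F4 C x x y y = 0 := by
    intro x y
    have h2 := avg1 h x y
    simp only [hf, Finset.sum_const_zero] at h2
    linear_combination (-1 / 16 : ℂ) * h2
  have h2 : ∀ y x z, F4 C x z y y = 0 := fun y => polar2 (fun x z => F4 C x z y y)
    (fun x x' z => F4_add1 x x' z y y) (fun x z z' => F4_add2 h x z z' y y)
    (fun a x z => F4_smul1 a x z y y) (fun a x z => F4_smul2 h a x z y y) (fun x => h1 x y)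
  have h3 : ∀ x z y w, F4 C x z y w = 0 := fun x z => polar2 (fun y w => F4 C x z y w)
    (fun y y' w => F4_add3 h x z y y' w) (fun y w w' => F4_add4 h x z y w w')
    (fun a y w => F4_smul3 h a x z y w) (fun a y w => F4_smul4 h a x z y w) (fun y => h2 y x z)
  have h4 := h3 (Pi.single α 1) (Pi.single β 1) (Pi.single γ 1) (Pi.single δ 1)
  unfold F4 at h4
  rw [Finset.sum_eq_single α, Finset.sum_eq_single β, Finset.sum_eq_single γ,
    Finset.sum_eq_single δ] at h4
  · simpa using h4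
  · intro b _ hb; simp [Pi.single_apply, hb]
  · intro hb; simp at hb
  · intro b _ hb; simp [Pi.single_apply, hb]
  · intro hb; simp at hb
  · intro b _ hb; simp [Pi.single_apply, hb]
  · intro hb; simp at hb
  · intro b _ hb; simp [Pi.single_apply, hb]
  · intro hb; simp at hb

lemma sum_out {ι : Type*} [Fintype ι] (g : Fin k → Fin k → Fin k → Fin k → ι → ℂ) :
    ∑ α, ∑ β, ∑ γ, ∑ δ, ∑ p, g α β γ δ p = ∑ p, ∑ α, ∑ β, ∑ γ, ∑ δ, g α β γ δ p := by
  calc ∑ α, ∑ β, ∑ γ, ∑ δ, ∑ p, g α β γ δ p = ∑ α, ∑ β, ∑ γ, ∑ p, ∑ δ, g α β γ δ p :=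
        Finset.sum_congr rfl fun _ _ => Finset.sum_congr rfl fun _ _ =>
          Finset.sum_congr rfl fun _ _ => Finset.sum_comm
    _ = ∑ α, ∑ β, ∑ p, ∑ γ, ∑ δ, g α β γ δ p :=
        Finset.sum_congr rfl fun _ _ => Finset.sum_congr rfl fun _ _ => Finset.sum_comm
    _ = ∑ α, ∑ p, ∑ β, ∑ γ, ∑ δ, g α β γ δ p :=
        Finset.sum_congr rfl fun _ _ => Finset.sum_comm
    _ = _ := Finset.sum_comm

lemma S_eq {ι : Type*} [Fintype ι] (P : Matrix (Fin k) (Fin k) ℂ) (q : ι → Cn k)
    (hq : ∀ α β, P β α = ∑ i, q i α * conj (q i β)) :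
    ∑ α, ∑ β, ∑ γ, ∑ δ, P β α * P δ γ * C α β γ δ =
      ∑ i, ∑ l, F4 C (q i) (q i) (q l) (q l) := by
  have h1 : ∀ α β γ δ, P β α * P δ γ * C α β γ δ =
      ∑ i, ∑ l, q i α * conj (q i β) * q l γ * conj (q l δ) * C α β γ δ := by
    intro α β γ δ
    rw [hq, hq, Finset.sum_mul_sum, Finset.sum_mul]
    refine Finset.sum_congr rfl fun i _ => ?_
    rw [Finset.sum_mul]
    refine Finset.sum_congr rfl fun l _ => ?_
    ring
  simp only [h1]
  rw [sum_out]
  refine Finset.sum_congr rfl fun i _ => ?_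
  rw [sum_out]
  rfl

lemma exists_B {P : Matrix (Fin k) (Fin k) ℂ} (hP : P.PosDef) :
    ∃ B : Matrix (Fin k) (Fin k) ℂ, IsUnit B.det ∧
      ∀ α β, P β α = ∑ j, B j α * conj (B j β) := by
  obtain ⟨B, hB⟩ := CStarAlgebra.nonneg_iff_eq_star_mul_self.mp hP.posSemidef.nonneg
  rw [Matrix.star_eq_conjTranspose] at hB
  refine ⟨B, ?_, ?_⟩
  · rw [isUnit_iff_ne_zero]
    intro h0
    have h1 := hP.det_pos
    rw [hB, Matrix.det_mul, h0, mul_zero] at h1
    exact lt_irrefl _ h1
  · intro α β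
    rw [hB, Matrix.mul_apply]
    refine Finset.sum_congr rfl fun j _ => ?_
    rw [Matrix.conjTranspose_apply, mul_comm]
    rfl

lemma exists_q {P : Matrix (Fin k) (Fin k) ℂ} (hP : P.PosDef) (s : Cn k) (hs : s ≠ 0) :
    ∃ q : Fin k → Cn k, (∀ α β, P β α = ∑ i, q i α * conj (q i β)) ∧
      ∃ (i : Fin k) (c : ℂ), c ≠ 0 ∧ q i = c • s := by
  obtain ⟨B, hdet, hB⟩ := exists_B hP
  set v : Cn k := s ᵥ* B⁻¹ with hv
  have hvB : v ᵥ* B = s := by
    rw [hv, Matrix.vecMul_vecMul, Matrix.nonsing_inv_mul B hdet, Matrix.vecMul_one]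
  have hv0 : v ≠ 0 := by
    intro h0
    rw [h0, Matrix.zero_vecMul] at hvB
    exact hs hvB.symm
  obtain ⟨i0, hi0⟩ : ∃ i, s i ≠ 0 := by
    by_contra hc
    push Not at hc
    exact hs (funext hc)
  set v' : EuclideanSpace ℂ (Fin k) := WithLp.toLp 2 v with hv'
  have hn : ‖v'‖ ≠ 0 := by
    rw [norm_ne_zero_iff]
    intro h0
    apply hv0
    have := congrArg WithLp.ofLp h0
    simpa [hv'] using this
  set u : EuclideanSpace ℂ (Fin k) := ((‖v'‖⁻¹ : ℝ) : ℂ) • v' with hu
  have hun : ‖u‖ = 1 := by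
    rw [hu, norm_smul, Complex.norm_real, norm_inv, norm_norm, inv_mul_cancel₀ hn]
  have hon : Orthonormal ℂ (({i0} : Set (Fin k)).domRestrict
      (fun _ : Fin k => u)) := by
    constructor
    · intro i
      exact hun
    · intro i j hij
      exact absurd (Subsingleton.elim i j) hij
  obtain ⟨b, hb⟩ := hon.exists_orthonormalBasis_extension_of_card_eq (by simp)
  have hb0 : b i0 = u := hb i0 rfl
  refine ⟨fun i α => ∑ j, b i j * B j α, ?_, i0, ((‖v'‖⁻¹ : ℝ) : ℂ), ?_, ?_⟩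
  · intro α β
    have h1 := b.sum_inner_mul_inner (WithLp.toLp 2 fun j => conj (B j α))
      (WithLp.toLp 2 fun j => conj (B j β))
    rw [hB]
    simp only [PiLp.inner_apply, RCLike.inner_apply, Complex.conj_conj] at h1
    rw [show ∑ j, B j α * conj (B j β) = ∑ i, conj (B i β) * B i α from
      Finset.sum_congr rfl fun _ _ => mul_comm _ _, ← h1]
    refine Finset.sum_congr rfl fun i _ => ?_
    rw [map_sum]
    congr 1
    refine Finset.sum_congr rfl fun j _ => ?_
    rw [map_mul, mul_comm]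
  · rw [Complex.ofReal_ne_zero]
    exact inv_ne_zero hn
  · funext α
    simp only
    rw [hb0, hu, Pi.smul_apply, ← hvB]
    unfold Matrix.vecMul dotProduct
    rw [smul_eq_mul, Finset.mul_sum]
    refine Finset.sum_congr rfl fun j _ => ?_
    rw [hv']
    simp only [PiLp.smul_apply, smul_eq_mul]
    ring

lemma six (A : Fin k → Fin k → Fin k → ℂ) (M : Matrix (Fin k) (Fin k) ℂ) :
    ∑ α, ∑ β, ∑ γ, ∑ δ, ∑ p, ∑ q, A α γ q * M q p * conj (A β δ p) =
      ∑ p, (∑ q, (∑ α, ∑ γ, A α γ q) * M q p) * conj (∑ β, ∑ δ, A β δ p) := by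
  rw [sum_out]
  refine Finset.sum_congr rfl fun p _ => ?_
  rw [sum_out, Finset.sum_mul]
  refine Finset.sum_congr rfl fun q _ => ?_
  calc ∑ α, ∑ β, ∑ γ, ∑ δ, A α γ q * M q p * conj (A β δ p)
      = ∑ α, ∑ β, (∑ γ, A α γ q) * (M q p * ∑ δ, conj (A β δ p)) := by
        refine Finset.sum_congr rfl fun α _ => Finset.sum_congr rfl fun β _ => ?_
        rw [Finset.sum_mul]
        refine Finset.sum_congr rfl fun γ _ => ?_
        rw [Finset.mul_sum, Finset.mul_sum]
        exact Finset.sum_congr rfl fun δ _ => by ring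
    _ = (∑ α, ∑ γ, A α γ q) * (M q p * ∑ β, ∑ δ, conj (A β δ p)) := by
        rw [Finset.sum_mul]
        refine Finset.sum_congr rfl fun α _ => ?_
        rw [Finset.mul_sum, Finset.mul_sum]
    _ = _ := by
        simp only [map_sum]
        ring

/-- The exact packet. -/
theorem algh : S_ALGH := by
  intro k G D1 D2 C hG h1 h2 h3 h4 h5
  have hP := hG.inv
  have hH : ∀ q p, conj (G⁻¹ q p) = G⁻¹ p q := by
    intro q p
    have := congrFun (congrFun hP.isHermitian p) q
    rw [Matrix.conjTranspose_apply] at this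
    exact this
  have hdet : IsUnit G.det := hG.det_pos.ne'.isUnit
  have hK : KSym C := by
    constructor
    · intro α β γ δ
      rw [h4, h4, h3]
      congr 1
      refine Finset.sum_congr rfl fun p _ => Finset.sum_congr rfl fun q _ => ?_
      rw [h2]
    · intro α β γ δ
      rw [h4, h4, map_add, map_neg, h1, map_sum, Finset.sum_comm]
      congr 1
      refine Finset.sum_congr rfl fun p _ => ?_
      rw [map_sum]
      refine Finset.sum_congr rfl fun q _ => ?_
      rw [map_mul, map_mul, hH, Complex.conj_conj]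
      ring
  have hreal : ∀ s, (F4 C s s s s).im = 0 := by
    intro s
    exact Complex.conj_eq_iff_im.1 (F4_conj hK s s s s)
  have hf : ∀ s, (F4 C s s s s).re ≤ 0 := by
    intro s
    set m : Cn k := fun q => ∑ β, ∑ δ, s β * s δ * D1 β δ q with hm
    set r : Cn k := fun γ => ∑ q, m q * G⁻¹ q γ with hr
    set Q : ℂ := ∑ p, r p * conj (m p) with hQ
    have hF : F4 C s s s s = -(∑ α, ∑ β, ∑ γ, ∑ δ, s α * conj (s β) * s γ * conj (s δ) *
        D2 α β γ δ) + Q := by
      have e1 : Q = ∑ α, ∑ β, ∑ γ, ∑ δ, ∑ p, ∑ q, (s α * s γ * D1 α γ q) * G⁻¹ q p *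
          conj (s β * s δ * D1 β δ p) := by
        rw [six (fun α γ q => s α * s γ * D1 α γ q)]
      rw [e1]
      unfold F4
      simp only [← Finset.sum_neg_distrib, ← Finset.sum_add_distrib]
      refine Finset.sum_congr rfl fun α _ => Finset.sum_congr rfl fun β _ =>
        Finset.sum_congr rfl fun γ _ => Finset.sum_congr rfl fun δ _ => ?_
      rw [h4, mul_add, Finset.mul_sum]
      congr 1
      · ring
      · refine Finset.sum_congr rfl fun p _ => ?_
        rw [Finset.mul_sum]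
        refine Finset.sum_congr rfl fun q _ => ?_
        simp only [map_mul]
        ring
    have hA := h5 s (fun γ => - r γ)
    have e2 : ∑ β, ∑ γ, ∑ δ, conj (s β) * (- r γ) * conj (s δ) * conj (D1 β δ γ) = - Q := by
      rw [Finset.sum_comm, hQ, ← Finset.sum_neg_distrib]
      refine Finset.sum_congr rfl fun γ _ => ?_
      rw [hm]
      simp only [map_sum, map_mul, Finset.mul_sum, ← Finset.sum_neg_distrib]
      refine Finset.sum_congr rfl fun β _ => Finset.sum_congr rfl fun δ _ => ?_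
      ring
    have e3 : ∑ γ, ∑ δ, (- r γ) * conj (- r δ) * G γ δ = conj Q := by
      have hrG : r ᵥ* G = m := by
        have : r = m ᵥ* G⁻¹ := by
          funext γ
          rfl
        rw [this, Matrix.vecMul_vecMul, Matrix.nonsing_inv_mul G hdet, Matrix.vecMul_one]
      rw [Finset.sum_comm, hQ, map_sum]
      refine Finset.sum_congr rfl fun δ _ => ?_
      have h6 : m δ = ∑ γ, r γ * G γ δ := by
        conv_lhs => rw [← hrG]
        rfl
      rw [map_mul, Complex.conj_conj, h6, Finset.mul_sum]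
      refine Finset.sum_congr rfl fun γ _ => ?_
      rw [map_neg]
      ring
    rw [e2, e3] at hA
    rw [hF]
    simp only [Complex.add_re, Complex.neg_re, Complex.conj_re] at hA ⊢
    linarith
  obtain ⟨B, -, hB⟩ := exists_B hP
  have hS0 := S_eq (C := C) G⁻¹ (fun i => B i) hB
  refine ⟨?_, ?_, ?_⟩
  · rw [hS0, Complex.im_sum]
    refine Finset.sum_eq_zero fun i _ => ?_
    rw [Complex.im_sum]
    exact Finset.sum_eq_zero fun l _ => Complex.conj_eq_iff_im.1 (F4_conj hK _ _ _ _)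
  · rw [hS0]
    have h6 := sum_le hK hf (fun i => B i)
    have h7 : ∑ i, (F4 C (B i) (B i) (B i) (B i)).re ≤ 0 := Finset.sum_nonpos fun i _ => hf _
    linarith
  · intro hz
    apply zero_of hK
    intro s
    by_cases hs : s = 0
    · rw [hs]
      have := F4_smul1 (C := C) 0 0 0 0 0
      rw [zero_smul, zero_mul] at this
      exact this
    obtain ⟨q, hq, i0, c, hc, hqi⟩ := exists_q hP s hs
    rw [S_eq (C := C) G⁻¹ q hq] at hz
    have h6 := sum_le hK hf q
    rw [hz, mul_zero] at h6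
    have h7 : (F4 C (q i0) (q i0) (q i0) (q i0)).re = 0 := by
      have h8 := (Finset.sum_eq_zero_iff_of_nonpos (fun i _ => hf (q i))).1
        (le_antisymm (Finset.sum_nonpos fun i _ => hf (q i)) h6)
      exact h8 i0 (Finset.mem_univ _)
    have h8 : F4 C (q i0) (q i0) (q i0) (q i0) = 0 := Complex.ext h7 (hreal _)
    rw [hqi, F4_smul1, F4_smul2 hK, F4_smul3 hK, F4_smul4 hK] at h8
    have hc' : conj c ≠ 0 := (map_ne_zero _).2 hc
    simpa [hc, hc'] using h8

end Pool.Agent.Helper2.RK
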