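import Pool.Agent.Helper10.SP.GoalsA
import Pool.Agent.Helper95.Lin.Basics

/-! Pointwise calculus of `cd`, `cdb` (twice the Wirtinger derivatives). -/

open Complex Metric Set Filter Topology
open scoped ContDiff ComplexConjugate

namespace Pool.Agent.Helper2.RK

open Pool.Agent.Helper95.Lin Pool.Agent.Helper10.SP

variable {n : ℕ} {f g : Cn n → ℂ} {x : Cn n}

theorem wcd_congr (h : f =ᶠ[𝓝 x] g) (l : Fin n) : cd l f x = cd l g x := by
  unfold cd; rw [h.fderiv_eq]

theorem wcdb_congr (h : f =ᶠ[𝓝 x] g) (l : Fin n) : cdb l f x = cdb l g x := by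
  unfold cdb; rw [h.fderiv_eq]

theorem wcd_congr_on {W : Set (Cn n)} (hW : IsOpen W) (hx : x ∈ W) (h : ∀ y ∈ W, f y = g y)
    (l : Fin n) : cd l f x = cd l g x :=
  wcd_congr (eventually_of_mem (hW.mem_nhds hx) h) l

theorem wcdb_congr_on {W : Set (Cn n)} (hW : IsOpen W) (hx : x ∈ W) (h : ∀ y ∈ W, f y = g y)
    (l : Fin n) : cdb l f x = cdb l g x :=
  wcdb_congr (eventually_of_mem (hW.mem_nhds hx) h) l

theorem wcd_const (c : ℂ) (l : Fin n) : cd l (fun _ : Cn n => c) x = 0 := by
  unfold cd; simp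

theorem wcdb_const (c : ℂ) (l : Fin n) : cdb l (fun _ : Cn n => c) x = 0 := by
  unfold cdb; simp

theorem wcd_add (hf : DifferentiableAt ℝ f x) (hg : DifferentiableAt ℝ g x) (l : Fin n) :
    cd l (fun y => f y + g y) x = cd l f x + cd l g x := by
  unfold cd
  rw [fderiv_fun_add hf hg]
  simp only [add_apply]
  ring

theorem wcdb_add (hf : DifferentiableAt ℝ f x) (hg : DifferentiableAt ℝ g x) (l : Fin n) :
    cdb l (fun y => f y + g y) x = cdb l f x + cdb l g x := by
  unfold cdb
  rw [fderiv_fun_add hf hg]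
  simp only [add_apply]
  ring

theorem wcd_sub (hf : DifferentiableAt ℝ f x) (hg : DifferentiableAt ℝ g x) (l : Fin n) :
    cd l (fun y => f y - g y) x = cd l f x - cd l g x := by
  unfold cd
  rw [fderiv_fun_sub hf hg]
  simp only [sub_apply]
  ring

theorem wcdb_sub (hf : DifferentiableAt ℝ f x) (hg : DifferentiableAt ℝ g x) (l : Fin n) :
    cdb l (fun y => f y - g y) x = cdb l f x - cdb l g x := by
  unfold cdb
  rw [fderiv_fun_sub hf hg]
  simp only [sub_apply]
  ring

theorem wcd_mul (hf : DifferentiableAt ℝ f x) (hg : DifferentiableAt ℝ g x) (l : Fin n) :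
    cd l (fun y => f y * g y) x = f x * cd l g x + g x * cd l f x := by
  unfold cd
  rw [fderiv_fun_mul hf hg]
  simp only [add_apply, smul_apply, smul_eq_mul]
  ring

theorem wcdb_mul (hf : DifferentiableAt ℝ f x) (hg : DifferentiableAt ℝ g x) (l : Fin n) :
    cdb l (fun y => f y * g y) x = f x * cdb l g x + g x * cdb l f x := by
  unfold cdb
  rw [fderiv_fun_mul hf hg]
  simp only [add_apply, smul_apply, smul_eq_mul]
  ring

theorem wcd_sum {ι : Type*} (s : Finset ι) {f : ι → Cn n → ℂ}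
    (hf : ∀ i ∈ s, DifferentiableAt ℝ (f i) x) (l : Fin n) :
    cd l (fun y => ∑ i ∈ s, f i y) x = ∑ i ∈ s, cd l (f i) x := by
  unfold cd
  rw [fderiv_fun_sum hf]
  simp only [sum_apply, Finset.mul_sum]
  rw [← Finset.sum_sub_distrib]

theorem wcdb_sum {ι : Type*} (s : Finset ι) {f : ι → Cn n → ℂ}
    (hf : ∀ i ∈ s, DifferentiableAt ℝ (f i) x) (l : Fin n) :
    cdb l (fun y => ∑ i ∈ s, f i y) x = ∑ i ∈ s, cdb l (f i) x := by
  unfold cdb
  rw [fderiv_fun_sum hf]
  simp only [sum_apply, Finset.mul_sum]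
  rw [← Finset.sum_add_distrib]

theorem wdiff_conj (hf : DifferentiableAt ℝ f x) : DifferentiableAt ℝ (fun y => conj (f y)) x :=
  Complex.conjCLE.differentiableAt.comp x hf

theorem wfderiv_conj (hf : DifferentiableAt ℝ f x) (v : Cn n) :
    fderiv ℝ (fun y => conj (f y)) x v = conj (fderiv ℝ f x v) := by
  have h1 : HasFDerivAt (fun y => conj (f y))
      (Complex.conjCLE.toContinuousLinearMap.comp (fderiv ℝ f x)) x :=
    Complex.conjCLE.toContinuousLinearMap.hasFDerivAt.comp x hf.hasFDerivAt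
  rw [h1.fderiv]
  rfl

theorem wcd_conj (hf : DifferentiableAt ℝ f x) (l : Fin n) :
    cd l (fun y => conj (f y)) x = conj (cdb l f x) := by
  unfold cd cdb
  rw [wfderiv_conj hf, wfderiv_conj hf, map_add, map_mul, Complex.conj_I]
  ring

theorem wcdb_conj (hf : DifferentiableAt ℝ f x) (l : Fin n) :
    cdb l (fun y => conj (f y)) x = conj (cd l f x) := by
  unfold cd cdb
  rw [wfderiv_conj hf, wfderiv_conj hf, map_sub, map_mul, Complex.conj_I]
  ring

theorem wsingle_I (l : Fin n) : (Pi.single l I : Cn n) = I • (Pi.single l 1 : Cn n) := by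
  funext j
  by_cases h : j = l
  · subst h; simp
  · simp [h]

theorem wcd_holo (h : DifferentiableAt ℂ f x) (l : Fin n) :
    cd l f x = 2 * fderiv ℂ f x (Pi.single l 1) := by
  have h1 : ∀ v, fderiv ℝ f x v = fderiv ℂ f x v := fun v => by
    rw [h.fderiv_restrictScalars ℝ]
    rfl
  simp only [cd, h1, wsingle_I, map_smul, smul_eq_mul]
  linear_combination (- fderiv ℂ f x (Pi.single l 1)) * Complex.I_sq

theorem wcdb_holo (h : DifferentiableAt ℂ f x) (l : Fin n) : cdb l f x = 0 := by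
  have h1 : ∀ v, fderiv ℝ f x v = fderiv ℂ f x v := fun v => by
    rw [h.fderiv_restrictScalars ℝ]
    rfl
  simp only [cdb, h1, wsingle_I, map_smul, smul_eq_mul]
  linear_combination (fderiv ℂ f x (Pi.single l 1)) * Complex.I_sq

theorem wdiff_holo (h : DifferentiableAt ℂ f x) : DifferentiableAt ℝ f x := h.restrictScalars ℝ

theorem wdiff_of {W : Set (Cn n)} (hW : IsOpen W) (hf : ContDiffOn ℝ ∞ f W) (hx : x ∈ W) :
    DifferentiableAt ℝ f x :=
  (hf.differentiableOn (by simp)).differentiableAt (hW.mem_nhds hx)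

end Pool.Agent.Helper2.RK
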