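import Pool.Agent.Helper36.RK.GoalsG
import Pool.Agent.Helper2.RK.Wir

/-! Packet CLR: a Kähler form is closed (real form). -/

open Complex Filter Topology Set
open scoped ContDiff ComplexConjugate ComplexOrder

namespace Pool.Agent.Helper2.RK

open Pool.Agent.Helper95.Lin Pool.Agent.Helper10.SP Pool.Agent.Helper36.RK

theorem wfderiv_eq {n : ℕ} (f : Cn n → ℂ) (x w : Cn n) :
    fderiv ℝ f x w = ∑ l, (1 / 2 : ℂ) * (cd l f x * w l + cdb l f x * conj (w l)) := by
  have h1 : w = ∑ l, ((w l).re • (Pi.single l 1 : Cn n) + (w l).im • (Pi.single l I : Cn n)) := by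
    funext j
    rw [Finset.sum_apply, Finset.sum_eq_single j]
    · simp only [Pi.add_apply, Pi.smul_apply, Pi.single_eq_same, Complex.real_smul, mul_one]
      exact (Complex.re_add_im (w j)).symm
    · intro l _ hl
      simp [Pi.single_apply, hl.symm]
    · intro h; simp at h
  conv_lhs => rw [h1]
  rw [map_sum]
  refine Finset.sum_congr rfl fun l _ => ?_
  rw [map_add, map_smul, map_smul]
  unfold cd cdb
  generalize fderiv ℝ f x (Pi.single l 1) = a
  generalize fderiv ℝ f x (Pi.single l I) = b
  have h2 : (w l) = ((w l).re : ℂ) + ((w l).im : ℂ) * I := (Complex.re_add_im (w l)).symm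
  have h3 : conj (w l) = ((w l).re : ℂ) - ((w l).im : ℂ) * I :=
    Complex.ext (by simp) (by simp)
  rw [h3]
  conv_rhs => rw [h2]
  simp only [Complex.real_smul, Complex.add_re, Complex.ofReal_re, Complex.mul_re, Complex.I_re,
    mul_zero, Complex.ofReal_im, Complex.I_im, mul_one, sub_self, add_zero, Complex.add_im,
    Complex.mul_im, zero_add]
  linear_combination (((w l).im : ℂ) * b) * Complex.I_sq

/-- The derivative of the metric. -/
noncomputable def hD {n : ℕ} (H : Cn n → Matrix (Fin n) (Fin n) ℂ) (x w u v : Cn n) : ℂ :=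
  ∑ l, ∑ i, ∑ j, (1 / 2 : ℂ) * cd l (fun y => H y i j) x * w l * u i * conj (v j)

/-- The exact packet. -/
theorem clr : S_CLR := by
  intro n W H hW hP hs hc x hx u v w
  have hdiff : ∀ i j, DifferentiableAt ℝ (fun y => H y i j) x := fun i j =>
    wdiff_of hW (hs i j) hx
  have hcdb : ∀ l i j, cdb l (fun y => H y i j) x = conj (cd l (fun y => H y j i) x) := by
    intro l i j
    rw [← wcdb_conj (hdiff j i)]
    refine wcdb_congr_on hW hx (fun y hy => ?_) l
    have := congrFun (congrFun (hP y hy).isHermitian i) j
    rw [Matrix.conjTranspose_apply] at this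
    exact this.symm
  have hsym : ∀ w u v, hD H x w u v = hD H x u w v := by
    intro w u v
    unfold hD
    rw [Finset.sum_comm]
    refine Finset.sum_congr rfl fun i _ => Finset.sum_congr rfl fun l _ =>
      Finset.sum_congr rfl fun j _ => ?_
    rw [hc x hx i j l]
    ring
  have hF : ∀ u v, HasFDerivAt (𝕜 := ℝ) (fun y => hermi (H y) u v)
      (∑ i, ∑ j, (u i * conj (v j)) • fderiv ℝ (fun y => H y i j) x) x := by
    intro u v
    unfold hermi
    refine HasFDerivAt.fun_sum fun i _ => HasFDerivAt.fun_sum fun j _ => ?_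
    have h1 := (hdiff i j).hasFDerivAt.mul_const (u i * conj (v j))
    refine h1.congr_of_eventuallyEq (Eventually.of_forall fun y => ?_)
    simp only
    ring
  have key : ∀ u v w, fderiv ℝ (fun y => (hermi (H y) u v).im) x w =
      (hD H x w u v).im - (hD H x w v u).im := by
    intro u v w
    have h1 : HasFDerivAt (𝕜 := ℝ) (fun y => (hermi (H y) u v).im)
        (Complex.imCLM.comp (∑ i, ∑ j, (u i * conj (v j)) • fderiv ℝ (fun y => H y i j) x)) x :=
      Complex.imCLM.hasFDerivAt.comp x (hF u v)
    rw [h1.fderiv]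
    have h2 : (∑ i, ∑ j, (u i * conj (v j)) • fderiv ℝ (fun y => H y i j) x) w =
        hD H x w u v + conj (hD H x w v u) := by
      unfold hD
      simp only [sum_apply, smul_apply, smul_eq_mul]
      rw [map_sum, ← Finset.sum_add_distrib]
      have e1 : ∀ i j, u i * conj (v j) * fderiv ℝ (fun y => H y i j) x w =
          ∑ l, ((1 / 2 : ℂ) * cd l (fun y => H y i j) x * w l * u i * conj (v j) +
            conj ((1 / 2 : ℂ) * cd l (fun y => H y j i) x * w l * v j * conj (u i))) := by
        intro i j
        rw [wfderiv_eq, Finset.mul_sum]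
        refine Finset.sum_congr rfl fun l _ => ?_
        rw [hcdb]
        simp only [map_mul, Complex.conj_conj, map_div₀, map_one, map_ofNat]
        ring
      simp only [e1]
      calc ∑ i, ∑ j, ∑ l, ((1 / 2 : ℂ) * cd l (fun y => H y i j) x * w l * u i * conj (v j) +
            conj ((1 / 2 : ℂ) * cd l (fun y => H y j i) x * w l * v j * conj (u i)))
          = ∑ l, ∑ i, ∑ j, ((1 / 2 : ℂ) * cd l (fun y => H y i j) x * w l * u i * conj (v j) +
            conj ((1 / 2 : ℂ) * cd l (fun y => H y j i) x * w l * v j * conj (u i))) := by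
            rw [Finset.sum_comm (s := (Finset.univ : Finset (Fin n)))
              (t := (Finset.univ : Finset (Fin n))) (f := fun l i => ∑ j,
              ((1 / 2 : ℂ) * cd l (fun y => H y i j) x * w l * u i * conj (v j) +
              conj ((1 / 2 : ℂ) * cd l (fun y => H y j i) x * w l * v j * conj (u i))))]
            exact Finset.sum_congr rfl fun i _ => Finset.sum_comm
        _ = _ := by
            refine Finset.sum_congr rfl fun l _ => ?_
            simp only [Finset.sum_add_distrib, map_sum]
            congr 1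
            rw [Finset.sum_comm]
    have h3 : (Complex.imCLM.comp (∑ i, ∑ j, (u i * conj (v j)) •
        fderiv ℝ (fun y => H y i j) x)) w = ((∑ i, ∑ j, (u i * conj (v j)) •
        fderiv ℝ (fun y => H y i j) x) w).im := rfl
    rw [h3, h2, Complex.add_im, Complex.conj_im]
    ring
  rw [key, key, key, hsym w u v, hsym w v u, hsym u v w]
  ring

end Pool.Agent.Helper2.RK
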