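import Pool.Agent.Helper10.RK.GoalsH
import Pool.Agent.Helper35.RK.TriB
import Pool.Agent.Helper16.RK.Calc
import Pool.Agent.Helper93.SP.INTB

/-! # Packet INTBK: integration over the base -/

open Complex Metric Set Filter Topology MeasureTheory
open scoped ContDiff ComplexConjugate ComplexOrder Manifold Matrix

namespace Pool.Agent.Helper2.RK

open Pool.Agent.Helper95.Lin Pool.Agent.Helper16.Abund Pool.Agent.Helper92.Orb
open Pool.Agent.Helper10.SP Pool.Agent.Helper95.RK Pool.Agent.Helper36.RK Pool.Agent.Helper10.RK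
open Pool.Agent.Helper35.RK

universe u v

namespace IBK

variable {b k : ℕ}

theorem hermi_dot {n : ℕ} (A : Matrix (Fin n) (Fin n) ℂ) (u v : Cn n) :
    hermi A u v = u ⬝ᵥ (A *ᵥ star v) := by
  unfold hermi
  simp only [dotProduct, Matrix.mulVec, Finset.mul_sum]
  refine Finset.sum_congr rfl fun i _ => Finset.sum_congr rfl fun j _ => ?_
  simp only [Pi.star_apply, RCLike.star_def]
  ring

theorem star_mulVec' {n : ℕ} (B : Matrix (Fin n) (Fin n) ℂ) (v : Cn n) :
    star (B *ᵥ v) = B.map (starRingEnd ℂ) *ᵥ star v := by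
  funext i
  simp [Matrix.mulVec, dotProduct]

theorem hermi_mulVec {n : ℕ} (A B : Matrix (Fin n) (Fin n) ℂ) (u v : Cn n) :
    hermi A (B *ᵥ u) (B *ᵥ v) = hermi (Bᵀ * A * B.map (starRingEnd ℂ)) u v := by
  rw [hermi_dot, hermi_dot, star_mulVec', ← Matrix.mulVec_mulVec, ← Matrix.mulVec_mulVec,
    Matrix.dotProduct_mulVec u Bᵀ, Matrix.vecMul_transpose]

theorem hermi_ext {n : ℕ} {A B : Matrix (Fin n) (Fin n) ℂ}
    (h : ∀ u w, hermi A u w = hermi B u w) : A = B := by
  ext i j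
  have h1 := h (Pi.single i 1) (Pi.single j 1)
  have h2 : ∀ A : Matrix (Fin n) (Fin n) ℂ, hermi A (Pi.single i 1) (Pi.single j 1) = A i j := by
    intro A
    rw [hermi_dot]
    simp
  rwa [h2, h2] at h1

/-- The determinant of the fibre block. -/
theorem det_trans {n : ℕ} {F F' B : Matrix (Fin n) (Fin n) ℂ}
    (h : ∀ u v, hermi F' (B *ᵥ u) (B *ᵥ v) = hermi F u v) :
    F.det = F'.det * (B.det * conj B.det) := by
  have h1 : F = Bᵀ * F' * B.map (starRingEnd ℂ) := hermi_ext fun u v => by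
    rw [← hermi_mulVec, h]
  rw [h1, Matrix.det_mul, Matrix.det_mul, Matrix.det_transpose]
  have h2 : (B.map (starRingEnd ℂ)).det = conj B.det := by
    rw [RingHom.map_det]
    rfl
  rw [h2]
  ring

/-- The horizontal lift. -/
noncomputable def YK (X : Cn b → Cn b) (H : Cn (b + k) → Matrix (Fin (b + k)) (Fin (b + k)) ℂ)
    (y : Cn (b + k)) : Cn (b + k) :=
  ptK (fun j => (fbl (H y)).det * X (base y) j) (fun i => -(fbl (H y)).det *
      ∑ j : Fin b, ∑ l : Fin k, X (base y) j * H y (Fin.castAdd k j) (Fin.natAdd b l) *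
        (fbl (H y))⁻¹ l i)

theorem base_YK (X : Cn b → Cn b) (H : Cn (b + k) → Matrix (Fin (b + k)) (Fin (b + k)) ℂ)
    (y : Cn (b + k)) : base (YK X H y) = (fbl (H y)).det • X (base y) := by
  rw [YK, base_ptK]
  rfl

theorem hermi_sum_fib (A : Matrix (Fin (b + k)) (Fin (b + k)) ℂ) (u : Cn (b + k)) (v : Cn k) :
    hermi A u (ptK 0 v) = ∑ p : Fin k, (∑ j : Fin b, A (Fin.castAdd k j) (Fin.natAdd b p) * base u j +
      ∑ i : Fin k, A (Fin.natAdd b i) (Fin.natAdd b p) * fib u i) * conj (v p) := by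
  unfold hermi
  rw [Finset.sum_comm, Fin.sum_univ_add]
  simp only [ptK_castAdd, ptK_natAdd, Pi.zero_apply, map_zero, mul_zero, Finset.sum_const_zero,
    zero_add]
  refine Finset.sum_congr rfl fun p _ => ?_
  rw [Fin.sum_univ_add, add_mul, Finset.sum_mul, Finset.sum_mul]
  rfl

/-- The horizontal lift is orthogonal to the fibres. -/
theorem YK_orth (X : Cn b → Cn b) (H : Cn (b + k) → Matrix (Fin (b + k)) (Fin (b + k)) ℂ)
    (y : Cn (b + k)) (hd : (fbl (H y)).det ≠ 0) (v : Cn k) :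
    hermi (H y) (YK X H y) (ptK 0 v) = 0 := by
  rw [hermi_sum_fib]
  refine Finset.sum_eq_zero fun p _ => ?_
  have hKF : (fbl (H y))⁻¹ * fbl (H y) = 1 := Matrix.nonsing_inv_mul _ hd.isUnit
  have h1 : ∑ i : Fin k, H y (Fin.natAdd b i) (Fin.natAdd b p) * fib (YK X H y) i =
      - ∑ j : Fin b, H y (Fin.castAdd k j) (Fin.natAdd b p) * base (YK X H y) j := by
    have h2 : ∀ i, H y (Fin.natAdd b i) (Fin.natAdd b p) * fib (YK X H y) i =
        ∑ j : Fin b, ∑ l : Fin k, -((fbl (H y)).det * X (base y) j *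
          H y (Fin.castAdd k j) (Fin.natAdd b l) * ((fbl (H y))⁻¹ l i * fbl (H y) i p)) := by
      intro i
      rw [YK, fib_ptK, Finset.mul_sum, Finset.mul_sum]
      refine Finset.sum_congr rfl fun j _ => ?_
      rw [Finset.mul_sum, Finset.mul_sum]
      refine Finset.sum_congr rfl fun l _ => ?_
      have : fbl (H y) i p = H y (Fin.natAdd b i) (Fin.natAdd b p) := rfl
      rw [this]
      ring
    rw [Finset.sum_congr rfl fun i _ => h2 i, Finset.sum_comm, ← Finset.sum_neg_distrib]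
    refine Finset.sum_congr rfl fun j _ => ?_
    rw [Finset.sum_comm]
    have h3 : ∀ l : Fin k, ∑ i : Fin k, -((fbl (H y)).det * X (base y) j *
          H y (Fin.castAdd k j) (Fin.natAdd b l) * ((fbl (H y))⁻¹ l i * fbl (H y) i p)) =
        -((fbl (H y)).det * X (base y) j * H y (Fin.castAdd k j) (Fin.natAdd b l) *
          (1 : Matrix (Fin k) (Fin k) ℂ) l p) := by
      intro l
      rw [Finset.sum_neg_distrib, ← Finset.mul_sum, ← hKF]
      rfl
    rw [Finset.sum_congr rfl fun l _ => h3 l, Finset.sum_eq_single p]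
    · rw [Matrix.one_apply_eq, base_YK]
      simp only [Pi.smul_apply, smul_eq_mul]
      ring
    · intro l _ hl
      rw [Matrix.one_apply_ne hl, mul_zero, neg_zero]
    · simp
  rw [h1, add_neg_cancel, zero_mul]

/-- A vector is determined by its base component and its pairing with the fibre directions. -/
theorem orth_unique {A : Matrix (Fin (b + k)) (Fin (b + k)) ℂ} (hA : (fbl A).PosDef)
    {u u' : Cn (b + k)} (hb : base u = base u')
    (h : ∀ v : Cn k, hermi A u (ptK 0 v) = hermi A u' (ptK 0 v)) : u = u' := by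
  set w : Cn k := fib u - fib u' with hw
  have h1 : u = u' + ptK 0 w := by
    apply ext_base_fib
    · rw [base_add, base_ptK, add_zero, hb]
    · rw [fib_add, fib_ptK, hw]; abel
  have h2 := h w
  have hadd : hermi A (u' + ptK 0 w) (ptK 0 w) = hermi A u' (ptK 0 w) +
      hermi A (ptK 0 w) (ptK 0 w) := by
    rw [hermi_dot, hermi_dot, hermi_dot, add_dotProduct]
  rw [h1, hadd] at h2
  have h3 : hermi A (ptK 0 w) (ptK 0 w) = 0 := by
    rw [add_comm] at h2
    exact add_eq_right.1 h2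
  rw [hermi_fib] at h3
  have h4 : w = 0 := by
    by_contra hne
    have h5 := hA.transpose
    have h6 := h5.dotProduct_mulVec_pos hne
    have h7 : star w ⬝ᵥ ((fbl A)ᵀ *ᵥ w) = hermi (fbl A) w w := by
      rw [hermi_dot, Matrix.mulVec_transpose, dotProduct_comm, ← Matrix.dotProduct_mulVec]
    rw [h7, h3] at h6
    exact lt_irrefl _ h6
  rw [h1, h4, ptK_zero, add_zero]

/-- Transformation of the horizontal lift. -/
theorem YK_trans (μ : Cn b → ℝ) (H : Cn (b + k) → Matrix (Fin (b + k)) (Fin (b + k)) ℂ)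
    (Y : Cn b → Cn b) (x y : Cn (b + k)) (J : Cn (b + k) →L[ℂ] Cn (b + k)) (A : Cn b →L[ℂ] Cn b)
    (B : Matrix (Fin k) (Fin k) ℂ) (hB : B.det ≠ 0) (hJb : ∀ v, base (J v) = A (base v))
    (hJf : ∀ v : Cn k, J (ptK 0 v) = ptK 0 (B *ᵥ v)) (hdet : J.det = A.det * B.det)
    (hx : (H x).PosDef) (hy : (H y).PosDef)
    (hinv : ∀ u v, hermi (H y) (J u) (J v) = hermi (H x) u v)
    (hμ : μ (base x) = μ (base y) * ‖A.det‖ ^ 2) (hY : A (Y (base x)) = Y (base y)) :
    J (YK (fun z j => (μ z : ℂ) * Y z j) H x) =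
      ((‖J.det‖ ^ 2 : ℝ) : ℂ) • YK (fun z j => (μ z : ℂ) * Y z j) H y := by
  have hdx : (fbl (H x)).det ≠ 0 := (fbl_posDef hx).det_pos.ne'
  have hdy : (fbl (H y)).det ≠ 0 := (fbl_posDef hy).det_pos.ne'
  have hFF : (fbl (H x)).det = (fbl (H y)).det * (B.det * conj B.det) := by
    refine det_trans fun u v => ?_
    rw [← hermi_fib, ← hermi_fib, ← hJf, ← hJf, hinv]
  have hdetn : ((‖J.det‖ ^ 2 : ℝ) : ℂ) = ((‖A.det‖ ^ 2 : ℝ) : ℂ) * (B.det * conj B.det) := by
    rw [hdet, norm_mul, mul_pow]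
    push_cast
    rw [Complex.mul_conj, Complex.normSq_eq_norm_sq]
    push_cast
    ring
  refine orth_unique (fbl_posDef hy) ?_ ?_
  · rw [hJb, base_YK, base_smul, base_YK, map_smul]
    have e : ∀ z, (fun j => (μ z : ℂ) * Y z j) = (μ z : ℂ) • Y z := fun z => rfl
    rw [e, e, map_smul, hY, hdetn, hFF, hμ, smul_smul, smul_smul, smul_smul]
    congr 1
    push_cast
    ring
  · intro v
    have hv : ptK 0 v = J (ptK 0 (B⁻¹ *ᵥ v)) := by
      rw [hJf, Matrix.mulVec_mulVec, Matrix.mul_nonsing_inv _ hB.isUnit, Matrix.one_mulVec]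
    have h1 : hermi (H y) (J (YK (fun z j => (μ z : ℂ) * Y z j) H x)) (ptK 0 v) = 0 := by
      rw [hv, hinv, YK_orth _ _ _ hdx]
    have h2 : hermi (H y) (((‖J.det‖ ^ 2 : ℝ) : ℂ) • YK (fun z j => (μ z : ℂ) * Y z j) H y)
        (ptK 0 v) = 0 := by
      have h3 := YK_orth (fun z j => (μ z : ℂ) * Y z j) H y hdy v
      rw [hermi_dot] at h3 ⊢
      rw [smul_dotProduct, h3, smul_zero]
    rw [h1, h2]

theorem contDiff_baseK {E : Type*} [NormedAddCommGroup E] [NormedSpace ℝ E] {D : Set (Cn b)}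
    {f : Cn b → E} (hf : ContDiffOn ℝ ∞ f D) :
    ContDiffOn ℝ ∞ (fun y : Cn (b + k) => f (base y)) (tubeK k D) := by
  have h : ContDiff ℝ ∞ (fun x : Cn (b + k) => base x) :=
    ((bsL b k).restrictScalars ℝ).contDiff
  exact hf.comp h.contDiffOn fun x hx => hx

end IBK

open IBK in
/-- INTBK. -/
theorem intbk (hARRB : S_ARRB.{u}) (hPUE : S_PUE.{u}) (hDIVC : S_DIVC.{u}) (hPIO : S_PIO)
    (hFDIV : S_FDIV) : S_INTBK.{u} := by
  intro b k N G _ c R Rel P Φ Hf C H hF μ hμs hμp hμi Y hY hYi hre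
  have hK := hF.ket
  have hE := hK.et
  set D : Set (Cn b) := Bd c 2 with hDdef
  have hD : IsOpen D := isOpen_iUnion fun i => isOpen_ball
  set T : Set (Cn (b + k)) := tubeK k D with hTdef
  have hT : IsOpen T := isOpen_tubeK hD
  obtain ⟨κ, hκ⟩ := hPUE T Rel hE
  set Dv : Cn b → ℂ := fun z => ∑ j, cd j (fun y => (μ y : ℂ) * Y y j) z with hDv
  have hFs : ∀ j, ContDiffOn ℝ ∞ (fun z => (μ z : ℂ) * Y z j) D := fun j =>
    (Complex.ofRealCLM.contDiff.comp_contDiffOn hμs).mul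
      ((contDiff_apply ℝ ℂ j).comp_contDiffOn hY)
  have hXs : ContDiffOn ℝ ∞ (fun z j => (μ z : ℂ) * Y z j) D := contDiffOn_pi.2 hFs
  have hDvs : ContDiffOn ℝ ∞ Dv D := by
    rw [hDv]
    exact ContDiffOn.sum fun j _ => Pool.Agent.Helper93.SP.cd_smooth hD (hFs j) j
  have hhol : ∀ V t, P V t → IsOpen V ∧ t.HolOn V ∧ ∀ z ∈ V, (t.A z).det ≠ 0 := fun V t ht => by
    obtain ⟨h1, -, h3, h4⟩ := hF.fol.holo V t ht
    exact ⟨h1, h3, fun z hz => (h4 z hz).2⟩
  have hFpos : ∀ x ∈ T, 0 < (fbl (H x)).det := fun x hx => (fbl_posDef (hK.posDef x hx)).det_pos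
  have hFsm : ∀ i j, ContDiffOn ℝ ∞ (fun x => fbl (H x) i j) T := fun i j => hK.smooth _ _
  have hdsm : ContDiffOn ℝ ∞ (fun x => (fbl (H x)).det) T :=
    Pool.Agent.Helper16.RK.det_smooth _ hFsm
  have hism : ∀ i j, ContDiffOn ℝ ∞ (fun x => (fbl (H x))⁻¹ i j) T := fun i j =>
    Pool.Agent.Helper16.RK.inv_smooth _ hFsm (fun y hy => (hFpos y hy).ne') i j
  -- the horizontal lift is invariant
  set Yl : Cn (b + k) → Cn (b + k) := YK (fun z j => (μ z : ℂ) * Y z j) H with hYl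
  have hYps : ContDiffOn ℝ ∞ Yl T := by
    rw [contDiffOn_pi]
    intro i
    refine Fin.addCases (fun j => ?_) (fun j => ?_) i
    · have e : (fun x => Yl x (Fin.castAdd k j)) = fun x =>
          (fbl (H x)).det * ((μ (base x) : ℂ) * Y (base x) j) := by
        funext x
        rw [hYl, YK, ptK_castAdd]
      rw [e]
      exact hdsm.mul (contDiff_baseK (hFs j))
    · have e : (fun x => Yl x (Fin.natAdd b j)) = fun x => -(fbl (H x)).det *
          ∑ j' : Fin b, ∑ l : Fin k, ((μ (base x) : ℂ) * Y (base x) j') *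
            H x (Fin.castAdd k j') (Fin.natAdd b l) * (fbl (H x))⁻¹ l j := by
        funext x
        rw [hYl, YK, ptK_natAdd]
      rw [e]
      exact hdsm.neg.mul (ContDiffOn.sum fun j' _ => ContDiffOn.sum fun l _ =>
        ((contDiff_baseK (hFs j')).mul (hK.smooth _ _)).mul (hism _ _))
  have htr : ∀ U τ, Arr Rel U τ → ∀ x ∈ U, fderiv ℂ τ x (Yl x) =
      ((‖(fderiv ℂ τ x).det‖ ^ 2 : ℝ) : ℂ) • Yl (τ x) := by
    intro U τ hA x hx
    have hA' := hA
    obtain ⟨hU, hτd, γ, hγ⟩ := hA'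
    obtain ⟨V, t, hP, hxV, hVD, hVm, hτx, hrel⟩ := hF.toP γ x (τ x) (hγ x hx)
    obtain ⟨hV, hol, ha⟩ := hhol V t hP
    have hxV' : x ∈ tubeK k V := hxV
    have hL : LAr Rel γ (tubeK k V) t.map := by
      refine ⟨isOpen_tubeK hV, fun y hy =>
        (map_deriv hV hol hy).differentiableAt.differentiableWithinAt, fun y hy => ?_⟩
      have := hrel (base y) hy (fib y)
      rw [ptK_base_fib] at this
      exact this
    have heq : τ =ᶠ[𝓝 x] t.map := (hARRB T Rel hE).2.2.1 γ U (tubeK k V) τ t.map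
      ⟨hU, hτd, hγ⟩ hL x hx hxV' hτx
    have hfd : fderiv ℂ τ x = fderiv ℂ t.map x := heq.fderiv_eq
    have hby : base (τ x) = t.g (base x) := by rw [hτx, TriK.map, base_ptK]
    have hPB : PBK c P V t := ⟨hP, hVD, hVm⟩
    have hmem := Pool.Agent.Helper93.SP.arr_mem hE hA hx
    refine YK_trans μ H Y x (τ x) (fderiv ℂ τ x) (fderiv ℂ t.g (base x)) (t.A (base x))
      (ha _ hxV) (fun v => by rw [hfd, map_fderiv hV hol hxV, base_ptK])
      (fun v => by rw [hfd, map_fib hV hol hxV]) (by rw [hfd, map_det hV hol hxV])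
      (hK.posDef x hmem.1) (hK.posDef (τ x) hmem.2) (hK.inv U τ hA x hx) ?_ ?_
    · rw [hby]
      exact hμi V t hPB _ hxV
    · rw [hby]
      exact hYi V t hPB _ hxV
  have hint := hDIVC T Rel H hK κ hκ Yl hYps htr
  -- the integrand
  set d : Cn (b + k) → ℂ := fun x => (fbl (H x)).det with hd
  have hHre : ∀ x ∈ T, 0 < (d x).re ∧ (d x).im = 0 := by
    intro x hx
    have := hFpos x hx
    rw [Complex.pos_iff] at this
    exact ⟨this.1, this.2.symm⟩
  have hint2 : ∫ x in T, (κ x : ℂ) * (d x * Dv (base x)) = 0 := by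
    rw [← hint]
    refine setIntegral_congr_fun hT.measurableSet fun x hx => ?_
    have h1 := hFDIV D H hD hK.posDef hK.smooth hK.closed (fun z j => (μ z : ℂ) * Y z j) hXs x hx
    have h2 : ∑ i, cd i (fun y => Yl y i) x = d x * Dv (base x) := h1
    rw [h2]
  have hGs : ContDiffOn ℝ ∞ (fun x => (d x).re * (Dv (base x)).re) T :=
    (Complex.reCLM.contDiff.comp_contDiffOn hdsm).mul
      (Complex.reCLM.contDiff.comp_contDiffOn (contDiff_baseK hDvs))
  have hGt := Pool.Agent.Helper70.Lin.testF_mul hT hκ.test hGs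
  have hGint : ∫ x in T, κ x * ((d x).re * (Dv (base x)).re) = 0 := by
    have hcont : ContinuousOn (fun x => (κ x : ℂ) * (d x * Dv (base x))) T :=
      (Complex.continuous_ofReal.comp_continuousOn hκ.test.1.continuous.continuousOn).mul
        (hdsm.continuousOn.mul (contDiff_baseK hDvs).continuousOn)
    have hi : IntegrableOn (fun x => (κ x : ℂ) * (d x * Dv (base x))) T := by
      have h1 := (hcont.mono hκ.test.2.2).integrableOn_compact
        (μ := (volume : Measure (Cn (b + k)))) hκ.test.2.1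
      refine h1.of_forall_sdiff_eq_zero hT.measurableSet fun x hx => ?_
      rw [image_eq_zero_of_notMem_tsupport hx.2]
      simp
    have h2 := Complex.reCLM.integral_comp_comm hi
    rw [hint2] at h2
    simp only [Complex.reCLM_apply, zero_re] at h2
    rw [← h2]
    refine setIntegral_congr_fun hT.measurableSet fun x hx => ?_
    simp only [mul_re, ofReal_re, ofReal_im, (hHre x hx).2, zero_mul, sub_zero]
  have hDvre : ∀ z ∈ D, 0 ≤ (Dv z).re := by
    intro z hz
    have h1 := hre z hz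
    have h2 : ((μ z : ℂ)⁻¹ * ∑ j, cd j (fun y => (μ y : ℂ) * Y y j) z).re =
        (μ z)⁻¹ * (Dv z).re := by
      rw [← ofReal_inv, re_ofReal_mul]
    rw [h2] at h1
    exact nonneg_of_mul_nonneg_right h1 (inv_pos.2 (hμp z hz))
  have hG0 : ∀ x ∈ T, κ x ≠ 0 → (Dv (base x)).re = 0 := by
    intro x hx hκx
    by_contra hne
    have hGnn : ∀ y, 0 ≤ κ y * ((d y).re * (Dv (base y)).re) := by
      intro y
      by_cases hy : y ∈ T
      · exact mul_nonneg (hκ.nonneg y) (mul_nonneg (hHre y hy).1.le (hDvre _ hy))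
      · rw [image_eq_zero_of_notMem_tsupport fun h => hy (hκ.test.2.2 h), zero_mul]
    have hne' : κ x * ((d x).re * (Dv (base x)).re) ≠ 0 :=
      mul_ne_zero hκx (mul_ne_zero (hHre x hx).1.ne' hne)
    have h3 := hGt.1.continuous.integral_pos_of_hasCompactSupport_nonneg_nonzero
      (μ := (volume : Measure (Cn (b + k)))) hGt.2.1 hGnn hne'
    rw [setIntegral_eq_integral_of_forall_compl_eq_zero] at hGint
    · exact h3.ne' hGint
    · intro y hy
      rw [image_eq_zero_of_notMem_tsupport fun h => hy (hκ.test.2.2 h), zero_mul]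
  -- conclusion
  intro z hz
  have hxT : ptK z (0 : Cn k) ∈ T := by
    rw [hTdef]
    simp only [tubeK, mem_setOf_eq, base_ptK]
    exact hz
  obtain ⟨γ, y, hγ, hκy⟩ := Pool.Agent.Helper93.SP.exists_arrow hκ hxT
  obtain ⟨V, t, hP, hxV, hVD, hVm, hy, hrel⟩ := hF.toP γ _ y hγ
  rw [base_ptK] at hxV
  obtain ⟨hV, hol, ha⟩ := hhol V t hP
  have hby : base y = t.g z := by rw [hy, TriK.map, base_ptK, base_ptK]
  have hPB : PBK c P V t := ⟨hP, hVD, hVm⟩
  have hdet : ∀ z ∈ V, (fderiv ℂ t.g z).det ≠ 0 := fun z hz => (hF.fol.pot V t hP z hz).1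
  have hμY : ContDiffOn ℝ ∞ (fun y => (μ y : ℂ) • Y y) D :=
    (Complex.ofRealCLM.contDiff.comp_contDiffOn hμs).smul hY
  have hpio := hPIO V D t.g hV hD hol.1 hVm hdet (fun y => (μ y : ℂ) • Y y)
    (fun y => (μ y : ℂ) • Y y) hμY (hμY.mono hVD) (fun x hx => by
      rw [map_smul, hYi V t hPB x hx, hμi V t hPB x hx, smul_smul]
      push_cast
      rw [mul_comm]) z hxV
  have hz0 : (Dv (t.g z)).re = 0 := by
    rw [← hby]
    exact hG0 y (hE.mem _ _ _ hγ).2 hκy
  have hfin : Dv z = ((‖(fderiv ℂ t.g z).det‖ ^ 2 : ℝ) : ℂ) * Dv (t.g z) := hpio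
  have h2 : ((μ z : ℂ)⁻¹ * ∑ j, cd j (fun y => (μ y : ℂ) * Y y j) z).re =
      (μ z)⁻¹ * (Dv z).re := by
    rw [← ofReal_inv, re_ofReal_mul]
  rw [h2, hfin, re_ofReal_mul, hz0, mul_zero, mul_zero]

end Pool.Agent.Helper2.RK
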