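import Pool.Agent.Helper36.RK.GoalsQ
import Pool.Agent.Helper95.RK.Basics

/-! Packet GRQ: growth of the mixed components. -/

open Complex Metric Set Filter Topology Matrix
open scoped ContDiff ComplexConjugate ComplexOrder

namespace Pool.Agent.Helper2.RK

open Pool.Agent.Helper95.Lin Pool.Agent.Helper16.Abund Pool.Agent.Helper10.SP
  Pool.Agent.Helper95.RK Pool.Agent.Helper36.RK

variable {b k : ℕ}

lemma map_diff {t : TriK b k} {U : Set (Cn b)} (h : t.HolOn U) :
    DifferentiableOn ℂ t.map (tubeK k U) := by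
  obtain ⟨h1, h2, h3⟩ := h
  have hm : MapsTo (bsL b k) (tubeK k U) U := fun x hx => hx
  have hg : DifferentiableOn ℂ (fun x : Cn (b + k) => t.g (base x)) (tubeK k U) :=
    h1.comp (bsL b k).differentiable.differentiableOn hm
  have hA : ∀ i j, DifferentiableOn ℂ (fun x : Cn (b + k) => t.A (base x) i j) (tubeK k U) :=
    fun i j => (h2 i j).comp (bsL b k).differentiable.differentiableOn hm
  have hβ : DifferentiableOn ℂ (fun x : Cn (b + k) => t.β (base x)) (tubeK k U) :=
    h3.comp (bsL b k).differentiable.differentiableOn hm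
  have hf : DifferentiableOn ℂ (fun x : Cn (b + k) => fib x) (tubeK k U) :=
    (fbL b k).differentiable.differentiableOn
  have hap : DifferentiableOn ℂ (fun x : Cn (b + k) => t.ap (base x) (fib x)) (tubeK k U) := by
    rw [differentiableOn_pi]
    intro i
    have h4 : (fun x : Cn (b + k) => t.ap (base x) (fib x) i) =
        fun x => (∑ j, t.A (base x) i j * fib x j) + t.β (base x) i := by
      funext x
      rfl
    rw [h4]
    refine DifferentiableOn.add ?_ (differentiableOn_pi.1 hβ i)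
    refine DifferentiableOn.fun_sum fun j _ => ?_
    exact (hA i j).mul (differentiableOn_pi.1 hf j)
  exact (ptL b k).differentiable.comp_differentiableOn (hg.prodMk hap)

lemma fd_bound {n m : ℕ} (f : Cn n → Cn m) {U : Set (Cn n)} (hU : IsOpen U)
    (hf : DifferentiableOn ℂ f U) (x u : Cn n) (hx : ∀ s : ℂ, ‖s‖ ≤ 1 → x + s • u ∈ U)
    (p : Cn m) (M : ℝ) (hM : ∀ s : ℂ, ‖s‖ = 1 → ‖f (x + s • u) - p‖ ≤ M) :
    ‖fderiv ℂ f x u‖ ≤ M := by
  have hd : ∀ s : ℂ, ‖s‖ ≤ 1 →
      HasDerivAt (fun s : ℂ => f (x + s • u) - p) (fderiv ℂ f (x + s • u) u) s := by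
    intro s hs
    have h1 : DifferentiableAt ℂ f (x + s • u) :=
      (hf _ (hx s hs)).differentiableAt (hU.mem_nhds (hx s hs))
    have h2 : HasDerivAt (fun s : ℂ => x + s • u) u s := by
      have := ((hasDerivAt_id s).smul_const u).const_add x
      simpa using this
    exact (h1.hasFDerivAt.comp_hasDerivAt s h2).sub_const p
  have h3 : DiffContOnCl ℂ (fun s : ℂ => f (x + s • u) - p) (ball 0 1) := by
    refine DifferentiableOn.diffContOnCl ?_
    intro s hs
    have hs' : ‖s‖ ≤ 1 := by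
      have := closure_ball_subset_closedBall hs
      simpa using this
    exact (hd s hs').differentiableAt.differentiableWithinAt
  have h4 := Complex.norm_deriv_le_of_forall_mem_sphere_norm_le (c := 0) (R := 1) one_pos h3
    (C := M) (fun s hs => hM s (by simpa using hs))
  rw [(hd 0 (by simp)).deriv, zero_smul, add_zero, div_one] at h4
  exact h4

lemma hermi_bound {n : ℕ} (A : Matrix (Fin n) (Fin n) ℂ) {B : ℝ} (hB : ∀ i j, ‖A i j‖ ≤ B)
    (hB0 : 0 ≤ B) (u v : Cn n) : ‖hermi A u v‖ ≤ (n : ℝ) ^ 2 * B * ‖u‖ * ‖v‖ := by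
  unfold hermi
  calc ‖∑ i, ∑ j, A i j * u i * conj (v j)‖ ≤ ∑ i, ‖∑ j, A i j * u i * conj (v j)‖ :=
        norm_sum_le _ _
    _ ≤ ∑ i : Fin n, ∑ j : Fin n, B * ‖u‖ * ‖v‖ := by
        refine Finset.sum_le_sum fun i _ => (norm_sum_le _ _).trans (Finset.sum_le_sum fun j _ => ?_)
        rw [norm_mul, norm_mul, RCLike.norm_conj]
        have h1 := hB i j
        have h2 := norm_le_pi_norm u i
        have h3 := norm_le_pi_norm v j
        gcongr
    _ = _ := by
        simp only [Finset.sum_const, Finset.card_univ, Fintype.card_fin, nsmul_eq_mul]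
        ring

lemma hermi_single {n : ℕ} (A : Matrix (Fin n) (Fin n) ℂ) (i j : Fin n) :
    hermi A (Pi.single i 1) (Pi.single j 1) = A i j := by
  unfold hermi
  rw [Finset.sum_eq_single i, Finset.sum_eq_single j]
  · simp
  · intro l _ hl
    simp [Pi.single_apply, hl]
  · intro h; simp at h
  · intro l _ hl
    simp [Pi.single_apply, hl]
  · intro h; simp at h

/-- The exact packet. -/
theorem grq : S_GRQ := by
  intro b k N c R P Φ Hf C H hF hK
  have hC := hF.Cge
  have hR : (16 : ℝ) ≤ R := by linarith [hF.Rge]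
  -- bound of `H` on a compact set
  obtain ⟨B, hB0, hB⟩ : ∃ B : ℝ, 0 ≤ B ∧ ∀ z ∈ Bd c 1, ∀ w : Cn k, ‖w‖ < 1 →
      ∀ i j, ‖H (ptK z w) i j‖ ≤ B := by
    have hcomp : IsCompact (ptL b k '' ((⋃ j, closedBall (c j) 1) ×ˢ closedBall (0 : Cn k) 1)) :=
      ((isCompact_iUnion fun j => isCompact_closedBall _ _).prod
        (isCompact_closedBall _ _)).image (ptL b k).continuous
    have hsub : ptL b k '' ((⋃ j, closedBall (c j) 1) ×ˢ closedBall (0 : Cn k) 1) ⊆
        tubeK k (Bd c R) := by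
      rintro _ ⟨⟨z, w⟩, ⟨hz, -⟩, rfl⟩
      obtain ⟨j, hj⟩ := mem_iUnion.1 hz
      refine mem_iUnion.2 ⟨j, ?_⟩
      rw [ptL_apply, base_ptK]
      exact closedBall_subset_ball (by linarith) hj
    have hcont : ContinuousOn (fun x => fun ij : Fin (b + k) × Fin (b + k) => H x ij.1 ij.2)
        (ptL b k '' ((⋃ j, closedBall (c j) 1) ×ˢ closedBall (0 : Cn k) 1)) :=
      continuousOn_pi.2 fun ij => (hK.smooth ij.1 ij.2).continuousOn.mono hsub
    obtain ⟨B, hB⟩ := hcomp.exists_bound_of_continuousOn hcont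
    refine ⟨max B 0, le_max_right _ _, ?_⟩
    intro z hz w hw i j
    obtain ⟨m, hm⟩ := mem_iUnion.1 hz
    have h1 := hB (ptK z w) ⟨(z, w), ⟨mem_iUnion.2 ⟨m, ball_subset_closedBall hm⟩, by
      rw [mem_closedBall_zero_iff]; exact hw.le⟩, rfl⟩
    exact ((norm_le_pi_norm (fun ij : Fin (b + k) × Fin (b + k) => H (ptK z w) ij.1 ij.2)
      (i, j)).trans h1).trans (le_max_left _ _)
  refine ⟨((b + k : ℕ) : ℝ) ^ 2 * B * (3 * C + 2 * C ^ 2) * C, ?_⟩
  intro z hz w a l
  obtain ⟨i, hi⟩ := mem_iUnion.1 hz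
  have hzR : z ∈ Bd c R := mem_iUnion.2 ⟨i, ball_subset_ball (by linarith) hi⟩
  obtain ⟨U, t0, hP0, hzU, hg0, hap0⟩ := hF.coc z hzR w
  have hg0' : t0.g z ∈ Bd c 2 := by
    obtain ⟨j, hj⟩ := mem_iUnion.1 hg0
    exact mem_iUnion.2 ⟨j, ball_subset_ball (by norm_num) hj⟩
  obtain ⟨t, U', hP, -, hzU', -, hEq⟩ := hF.ext i z hi U t0 hP0 hzU hg0'
  obtain ⟨e1, e2, e3⟩ := hEq z hzU'
  have hg1 : t.g z ∈ Bd c 1 := by rw [e1]; exact hg0
  have hap : ‖t.ap z w‖ < 1 := by
    have : t.ap z w = t0.ap z w := by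
      unfold TriK.ap
      rw [e2, e3]
    rw [this]
    exact hap0
  have hBig : BigK c P i t := ⟨hP, z, hi, by rw [e1]; exact hg0'⟩
  have hHol := (hF.holo _ _ hP).2.2.1
  have hmd := map_diff hHol
  have hop : IsOpen (tubeK k (ball (c i) 4)) := isOpen_tubeK isOpen_ball
  have hz4 : z ∈ ball (c i) 4 := ball_subset_ball (by norm_num) hi
  have hstep : ∀ v : Cn b, ‖v‖ ≤ 1 → z + v ∈ ball (c i) 4 := by
    intro v hv
    rw [mem_ball, dist_eq_norm] at hi ⊢
    calc ‖z + v - c i‖ = ‖(z - c i) + v‖ := by congr 1; ring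
      _ ≤ ‖z - c i‖ + ‖v‖ := norm_add_le _ _
      _ < 4 := by linarith
  have hβ : ‖t.β z‖ ≤ 1 + C * ‖w‖ := by
    have h1 : t.β z = t.ap z w - t.A z *ᵥ w := by unfold TriK.ap; simp
    rw [h1]
    refine (norm_sub_le _ _).trans (add_le_add hap.le ?_)
    exact (hF.abd i t hBig z hz4).1 w
  set x : Cn (b + k) := ptK z w with hx
  set u : Cn (b + k) := Pi.single (Fin.castAdd k a) 1 with hu
  set v : Cn (b + k) := Pi.single (Fin.natAdd b l) 1 with hv
  have hu' : u = ptK (Pi.single a 1) 0 := ecast_eq a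
  have hv' : v = ptK 0 (Pi.single l 1) := by
    have := ef_eq (b := b) l
    exact this
  have hn1 : ∀ s : ℂ, ‖s • (Pi.single a 1 : Cn b)‖ = ‖s‖ := by
    intro s
    rw [norm_smul, Pi.norm_single, norm_one, mul_one]
  have hn2 : ∀ s : ℂ, ‖s • (Pi.single l 1 : Cn k)‖ = ‖s‖ := by
    intro s
    rw [norm_smul, Pi.norm_single, norm_one, mul_one]
  have hxu : ∀ s : ℂ, x + s • u = ptK (z + s • Pi.single a 1) w := by
    intro s
    rw [hx, hu', ← ptK_smul, ← ptK_add, smul_zero, add_zero]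
  have hxv : ∀ s : ℂ, x + s • v = ptK z (w + s • Pi.single l 1) := by
    intro s
    rw [hx, hv', ← ptK_smul, ← ptK_add, smul_zero, add_zero]
  have hw0 := norm_nonneg w
  have hDu : ‖fderiv ℂ t.map x u‖ ≤ (3 * C + 2 * C ^ 2) * (1 + ‖w‖) := by
    refine fd_bound t.map hop hmd x u ?_ (ptK (t.g z) 0) _ ?_
    · intro s hs
      rw [hxu, tubeK, mem_setOf_eq, base_ptK]
      exact hstep _ (by rw [hn1]; exact hs)
    · intro s hs
      have hz' : z + s • Pi.single a 1 ∈ ball (c i) 4 := hstep _ (by rw [hn1]; exact hs.le)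
      have h1 : t.map (x + s • u) - ptK (t.g z) 0 =
          ptK (t.g (z + s • Pi.single a 1) - t.g z) (t.ap (z + s • Pi.single a 1) w) := by
        rw [hxu]
        unfold TriK.map
        rw [base_ptK, fib_ptK]
        apply ext_base_fib <;> simp [base_sub, fib_sub]
      rw [h1, norm_ptK]
      refine max_le ?_ ?_
      · have h2 := hF.lip i t hBig _ hz' z hz4
        rw [add_sub_cancel_left, hn1, hs, mul_one] at h2
        refine h2.trans ?_
        nlinarith [mul_nonneg (by linarith : (0:ℝ) ≤ C) hw0,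
          mul_nonneg (sq_nonneg C) hw0, sq_nonneg C]
      · have h3 : ‖t.ap (z + s • Pi.single a 1) w‖ ≤ C * ‖w‖ + C * (1 + ‖t.β z‖) := by
          unfold TriK.ap
          exact (norm_add_le _ _).trans (add_le_add ((hF.abd i t hBig _ hz').1 w)
            (hF.bgr i t hBig _ hz' z hz4))
        have h4 : C * (1 + ‖t.β z‖) ≤ C * (2 + C * ‖w‖) :=
          mul_le_mul_of_nonneg_left (by linarith) (by linarith)
        nlinarith [mul_nonneg (by linarith : (0:ℝ) ≤ C) hw0,
          mul_nonneg (sq_nonneg C) hw0, sq_nonneg C]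
  have hDv : ‖fderiv ℂ t.map x v‖ ≤ C := by
    refine fd_bound t.map hop hmd x v ?_ (t.map x) _ ?_
    · intro s hs
      rw [hxv, tubeK, mem_setOf_eq, base_ptK]
      exact hz4
    · intro s hs
      have h1 : t.map (x + s • v) - t.map x = ptK 0 (t.A z *ᵥ (s • Pi.single l 1)) := by
        rw [hxv, hx]
        unfold TriK.map TriK.ap
        rw [base_ptK, fib_ptK, base_ptK, fib_ptK]
        apply ext_base_fib
        · simp [base_sub]
        · rw [fib_sub, fib_ptK, fib_ptK, fib_ptK, Matrix.mulVec_add]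
          abel
      rw [h1, norm_ptK, norm_zero]
      refine max_le (by linarith) ?_
      have h2 := (hF.abd i t hBig z hz4).1 (s • Pi.single l 1)
      rw [hn2, hs, mul_one] at h2
      exact h2
  have hinv := hK.inv _ t hP x (by rw [hx, tubeK, mem_setOf_eq, base_ptK]; exact hz4) u v
  have hval : hA H x a l = hermi (H x) u v := by
    rw [hu, hv, hermi_single]
    rfl
  have hHB : ∀ i j, ‖H (t.map x) i j‖ ≤ B := by
    intro p q
    have h1 : t.map x = ptK (t.g z) (t.ap z w) := by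
      rw [hx]
      unfold TriK.map
      rw [base_ptK, fib_ptK]
    rw [h1]
    exact hB _ hg1 _ hap p q
  rw [hval, ← hinv]
  refine (hermi_bound _ hHB hB0 _ _).trans ?_
  have hC0 : 0 ≤ 3 * C + 2 * C ^ 2 := by positivity
  calc ((b + k : ℕ) : ℝ) ^ 2 * B * ‖fderiv ℂ t.map x u‖ * ‖fderiv ℂ t.map x v‖
      ≤ ((b + k : ℕ) : ℝ) ^ 2 * B * ((3 * C + 2 * C ^ 2) * (1 + ‖w‖)) * C := by gcongr
    _ = _ := by ring

end Pool.Agent.Helper2.RK
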