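import Pool.Agent.Helper95.RK.GoalsB
import Pool.Agent.Helper95.RK.Basics
import Pool.Agent.Helper2.RK.Wir
import Pool.Agent.Helper2.RK.GRQ

/-! Packet NATD: naturality of `K` and `A`. -/

open Complex Metric Set Filter Topology Matrix
open scoped ContDiff ComplexConjugate ComplexOrder

namespace Pool.Agent.Helper2.RK

open Pool.Agent.Helper95.Lin Pool.Agent.Helper16.Abund Pool.Agent.Helper10.SP
  Pool.Agent.Helper95.RK

section natd

variable {b k : ℕ} {W' W : Set (Cn (b + k))}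
  {Q' Q : Cn (b + k) → Matrix (Fin (b + k)) (Fin (b + k)) ℂ} {Φ' Φ : Cn (b + k) → ℝ}
  {τ : Cn (b + k) → Cn (b + k)}

/-- The mixed block `∂_a τ^p`. -/
noncomputable def Ttq {b k : ℕ} (τ : Cn (b + k) → Cn (b + k)) (x : Cn (b + k)) :
    Matrix (Fin b) (Fin k) ℂ :=
  Matrix.of fun a p => fderiv ℂ τ x (Pi.single (Fin.castAdd k a) 1) (Fin.natAdd b p)

/-- The mixed block of the metric. -/
def Mq {b k : ℕ} (Q : Cn (b + k) → Matrix (Fin (b + k)) (Fin (b + k)) ℂ) (x : Cn (b + k)) :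
    Matrix (Fin b) (Fin k) ℂ := Matrix.of fun a i => Q x (Fin.castAdd k a) (Fin.natAdd b i)

/-- The matrix of the lift. -/
noncomputable def Psm {b k : ℕ} (Q : Cn (b + k) → Matrix (Fin (b + k)) (Fin (b + k)) ℂ)
    (x : Cn (b + k)) : Matrix (Fin b) (Fin k) ℂ := Mq Q x * (gq Q x)⁻¹

theorem Psm_apply (x : Cn (b + k)) (a : Fin b) (i : Fin k) : Psm Q x a i = psq Q a i x := rfl

theorem Mq_eq (h : MorQ W' W Q' Q Φ' Φ τ) {x : Cn (b + k)} (hx : x ∈ W')
    (hb : ∀ e, base (fderiv ℂ τ x e) = 0 ↔ base e = 0) :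
    Mq Q' x = (Gbq τ x * Mq Q (τ x) + Ttq τ x * gq Q (τ x)) * (Jfq τ x)ᴴ := by
  ext a i
  have h1 := h.met x hx (Pi.single (Fin.castAdd k a) 1) (ef b i)
  have h2 : hermi (Q' x) (Pi.single (Fin.castAdd k a) 1) (ef b i) = Mq Q' x a i :=
    hermi_single _ _ _
  rw [← h2, ← h1]
  have h0 : ∀ c : Fin b, fderiv ℂ τ x (ef b i) (Fin.castAdd k c) = 0 := by
    intro c
    have := (hb (ef b i)).2 (base_ef i)
    exact congrFun this c
  unfold hermi
  rw [Fin.sum_univ_add]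
  simp only [Fin.sum_univ_add, h0, map_zero, mul_zero, Finset.sum_const_zero, zero_add]
  rw [Matrix.mul_apply]
  simp only [Matrix.add_apply, Matrix.mul_apply, Matrix.conjTranspose_apply, add_mul,
    Finset.sum_add_distrib, Finset.sum_mul]
  congr 1
  · rw [Finset.sum_comm]
    refine Finset.sum_congr rfl fun c _ => Finset.sum_congr rfl fun l _ => ?_
    simp only [Mq, Gbq, Jfq, Matrix.of_apply]
    rw [← starRingEnd_apply]
    ring
  · rw [Finset.sum_comm]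
    refine Finset.sum_congr rfl fun c _ => Finset.sum_congr rfl fun l _ => ?_
    simp only [gq, fbl, Ttq, Jfq, Matrix.of_apply, Matrix.submatrix_apply]
    rw [← starRingEnd_apply]
    ring

theorem star_eq (hSMQ : S_SMQ) (hN : S_NATA) (h : MorQ W' W Q' Q Φ' Φ τ) {x : Cn (b + k)}
    (hx : x ∈ W') : Psm Q' x * Jfq τ x = Ttq τ x + Gbq τ x * Psm Q (τ x) := by
  obtain ⟨-, -, hN⟩ := hN W' W Q' Q Φ' Φ τ h
  obtain ⟨hb, hdet, hg, -⟩ := hN x hx
  have hJ : IsUnit (Jfq τ x).det := by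
    rw [isUnit_iff_ne_zero]
    intro h0
    apply h.det x hx
    rw [hdet, h0, mul_zero]
  have hJ' : IsUnit ((Jfq τ x)ᴴ).det := by
    rw [Matrix.det_conjTranspose]
    exact hJ.star
  have hgd : IsUnit (gq Q (τ x)).det :=
    (((hSMQ W Q Φ h.tgt).1.1 (τ x) (h.maps hx)).1.det_pos.ne').isUnit
  unfold Psm
  rw [Mq_eq h hx hb, hg, Matrix.mul_inv_rev, Matrix.mul_inv_rev]
  have e1 : (Jfq τ x)ᴴ * ((Jfq τ x)ᴴ)⁻¹ = 1 := Matrix.mul_nonsing_inv _ hJ'
  have e2 : (Jfq τ x)⁻¹ * Jfq τ x = 1 := Matrix.nonsing_inv_mul _ hJ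
  have e3 : gq Q (τ x) * (gq Q (τ x))⁻¹ = 1 := Matrix.mul_nonsing_inv _ hgd
  calc (Gbq τ x * Mq Q (τ x) + Ttq τ x * gq Q (τ x)) * (Jfq τ x)ᴴ *
        (((Jfq τ x)ᴴ)⁻¹ * ((gq Q (τ x))⁻¹ * (Jfq τ x)⁻¹)) * Jfq τ x
      = (Gbq τ x * Mq Q (τ x) + Ttq τ x * gq Q (τ x)) * ((Jfq τ x)ᴴ * ((Jfq τ x)ᴴ)⁻¹) *
        ((gq Q (τ x))⁻¹ * ((Jfq τ x)⁻¹ * Jfq τ x)) := by simp only [Matrix.mul_assoc]
    _ = Gbq τ x * (Mq Q (τ x) * (gq Q (τ x))⁻¹) +
        Ttq τ x * (gq Q (τ x) * (gq Q (τ x))⁻¹) := by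
        rw [e1, e2, Matrix.mul_one, Matrix.mul_one, Matrix.add_mul, Matrix.mul_assoc,
          Matrix.mul_assoc]
    _ = _ := by rw [e3, Matrix.mul_one, add_comm]

/-! ### Differentiation along `conj V_a` -/

variable {f g : Cn (b + k) → ℂ} {x : Cn (b + k)}

theorem Vb_congr_on {U : Set (Cn (b + k))} (hU : IsOpen U) (hx : x ∈ U)
    (h : ∀ y ∈ U, f y = g y) (a : Fin b) : Vb Q a f x = Vb Q a g x := by
  unfold Vb
  rw [wcdb_congr_on hU hx h]
  congr 1
  refine Finset.sum_congr rfl fun i _ => ?_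
  rw [wcdb_congr_on hU hx h]

theorem Vb_mul (hf : DifferentiableAt ℝ f x) (hg : DifferentiableAt ℝ g x) (a : Fin b) :
    Vb Q a (fun y => f y * g y) x = f x * Vb Q a g x + g x * Vb Q a f x := by
  unfold Vb
  rw [wcdb_mul hf hg]
  simp only [wcdb_mul hf hg, mul_add, Finset.sum_add_distrib, mul_sub, Finset.mul_sum]
  rw [show ∑ i, conj (psq Q a i x) * (f x * cdb (Fin.natAdd b i) g x) =
      ∑ i, f x * (conj (psq Q a i x) * cdb (Fin.natAdd b i) g x) from
      Finset.sum_congr rfl fun i _ => by ring,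
    show ∑ i, conj (psq Q a i x) * (g x * cdb (Fin.natAdd b i) f x) =
      ∑ i, g x * (conj (psq Q a i x) * cdb (Fin.natAdd b i) f x) from
      Finset.sum_congr rfl fun i _ => by ring]
  ring

theorem Vb_sum {ι : Type*} (s : Finset ι) {f : ι → Cn (b + k) → ℂ}
    (hf : ∀ i ∈ s, DifferentiableAt ℝ (f i) x) (a : Fin b) :
    Vb Q a (fun y => ∑ i ∈ s, f i y) x = ∑ i ∈ s, Vb Q a (f i) x := by
  unfold Vb
  rw [wcdb_sum s hf, Finset.sum_sub_distrib]
  congr 1
  rw [Finset.sum_comm]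
  refine Finset.sum_congr rfl fun i _ => ?_
  rw [wcdb_sum s hf, Finset.mul_sum]

theorem Vb_holo (hf : DifferentiableAt ℂ f x) (a : Fin b) : Vb Q a f x = 0 := by
  unfold Vb
  simp [wcdb_holo hf]

/-- The derivation along `V_a` (times `2`). -/
noncomputable def Va {b k : ℕ} (Q : Cn (b + k) → Matrix (Fin (b + k)) (Fin (b + k)) ℂ) (a : Fin b)
    (f : Cn (b + k) → ℂ) (x : Cn (b + k)) : ℂ :=
  cd (Fin.castAdd k a) f x - ∑ i, psq Q a i x * cd (Fin.natAdd b i) f x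

theorem Vb_conj (hf : DifferentiableAt ℝ f x) (a : Fin b) :
    Vb Q a (fun y => conj (f y)) x = conj (Va Q a f x) := by
  unfold Vb Va
  simp only [wcdb_conj hf, map_sub, map_sum, map_mul]

/-! ### Second derivatives -/

theorem hol_entry (h : MorQ W' W Q' Q Φ' Φ τ) (v : Cn (b + k)) (q : Fin (b + k)) :
    DifferentiableOn ℂ (fun y => fderiv ℂ τ y v q) W' := by
  have h1 := holo_fderiv h.src.isOpen h.holo
  have h2 : DifferentiableOn ℂ (fun y => fderiv ℂ τ y v) W' :=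
    h1.clm_apply (differentiableOn_const _)
  exact fun y hy => (differentiableWithinAt_pi.1 (h2 y hy)) q

theorem sym2 (h : MorQ W' W Q' Q Φ' Φ τ) (hx : x ∈ W') (l m q : Fin (b + k)) :
    cd l (fun y => fderiv ℂ τ y (Pi.single m 1) q) x =
      cd m (fun y => fderiv ℂ τ y (Pi.single l 1) q) x := by
  have hW := h.src.isOpen
  have hd : DifferentiableAt ℂ (fderiv ℂ τ) x :=
    (holo_fderiv hW h.holo).differentiableAt (hW.mem_nhds hx)
  have key : ∀ v u : Cn (b + k), fderiv ℂ (fun y => fderiv ℂ τ y v q) x u =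
      fderiv ℂ (fderiv ℂ τ) x u v q := by
    intro v u
    have h1 : HasFDerivAt (fun y => fderiv ℂ τ y v q)
        ((ContinuousLinearMap.proj q).comp ((ContinuousLinearMap.apply ℂ (Cn (b + k)) v).comp
          (fderiv ℂ (fderiv ℂ τ) x))) x :=
      (ContinuousLinearMap.proj (R := ℂ) (φ := fun _ : Fin (b + k) => ℂ) q).hasFDerivAt.comp x
        ((ContinuousLinearMap.apply ℂ (Cn (b + k)) v).hasFDerivAt.comp x hd.hasFDerivAt)
    rw [h1.fderiv]
    rfl
  have hs : IsSymmSndFDerivAt ℂ τ x := by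
    have h1 : ContDiffAt ℂ ∞ τ x := (holo_contDiffOn hW h.holo).contDiffAt (hW.mem_nhds hx)
    exact h1.isSymmSndFDerivAt (by rw [minSmoothness_of_isRCLikeNormedField]; exact WithTop.coe_le_coe.2 (le_top : (2 : ℕ∞) ≤ ⊤))
  rw [wcd_holo ((hol_entry h _ _).differentiableAt (hW.mem_nhds hx)),
    wcd_holo ((hol_entry h _ _).differentiableAt (hW.mem_nhds hx)), key, key]
  rw [hs.eq]

theorem smooth_comp (h : MorQ W' W Q' Q Φ' Φ τ) (hf : ContDiffOn ℝ ∞ f W) :
    ContDiffOn ℝ ∞ (fun y => f (τ y)) W' :=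
  hf.comp (holo_contDiffOn_real h.src.isOpen h.holo) h.maps

theorem Vb_comp (hSMQ : S_SMQ) (hN : S_NATA) (h : MorQ W' W Q' Q Φ' Φ τ) (hx : x ∈ W')
    (hf : ContDiffOn ℝ ∞ f W) (a : Fin b) : Vb Q' a (fun y => f (τ y)) x =
      ∑ c, conj (Gbq τ x a c) * Vb Q c f (τ x) := by
  have hst := star_eq hSMQ hN h hx
  obtain ⟨-, -, hN⟩ := hN W' W Q' Q Φ' Φ τ h
  obtain ⟨-, -, -, -, -, -, hch⟩ := hN x hx
  obtain ⟨c1, c2⟩ := hch f hf
  have e1 : ∀ p, ∑ i, conj (psq Q' a i x) * conj (Jfq τ x i p) =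
      conj (Ttq τ x a p) + ∑ c, conj (Gbq τ x a c) * conj (psq Q c p (τ x)) := by
    intro p
    have h1 := congrFun (congrFun hst a) p
    simp only [Matrix.add_apply, Matrix.mul_apply, Psm_apply] at h1
    have h2 := congrArg conj h1
    simpa only [map_sum, map_add, map_mul] using h2
  unfold Vb
  rw [c2 a]
  simp only [(c1 _).2, Finset.mul_sum]
  rw [Finset.sum_comm (f := fun i p => conj (psq Q' a i x) * (conj (Jfq τ x i p) *
    cdb (Fin.natAdd b p) f (τ x)))]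
  have e2 : ∑ p, ∑ i, conj (psq Q' a i x) * (conj (Jfq τ x i p) *
      cdb (Fin.natAdd b p) f (τ x)) = ∑ p, (conj (Ttq τ x a p) +
      ∑ c, conj (Gbq τ x a c) * conj (psq Q c p (τ x))) * cdb (Fin.natAdd b p) f (τ x) := by
    refine Finset.sum_congr rfl fun p _ => ?_
    rw [← e1, Finset.sum_mul]
    exact Finset.sum_congr rfl fun i _ => by ring
  rw [e2]
  simp only [add_mul, Finset.sum_add_distrib, mul_sub, Finset.sum_sub_distrib, Finset.mul_sum,
    Finset.sum_mul]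
  rw [Finset.sum_comm (f := fun p c => conj (Gbq τ x a c) * conj (psq Q c p (τ x)) *
    cdb (Fin.natAdd b p) f (τ x))]
  have e3 : ∀ p, conj (Ttq τ x a p) =
      conj (fderiv ℂ τ x (Pi.single (Fin.castAdd k a) 1) (Fin.natAdd b p)) := fun p => rfl
  simp only [e3, mul_assoc]
  ring

theorem dbar_star (hSMQ : S_SMQ) (hN : S_NATA) (h : MorQ W' W Q' Q Φ' Φ τ) (hx : x ∈ W')
    (a : Fin b) (i p : Fin k) :
    ∑ m, cdb (Fin.natAdd b i) (psq Q' a m) x * Jfq τ x m p =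
      ∑ c, Gbq τ x a c * ∑ r, conj (Jfq τ x i r) * cdb (Fin.natAdd b r) (psq Q c p) (τ x) := by
  have hW := h.src.isOpen
  have hst := fun y (hy : y ∈ W') => congrFun (congrFun (star_eq hSMQ hN h hy) a) p
  simp only [Matrix.add_apply, Matrix.mul_apply, Psm_apply] at hst
  obtain ⟨hJ, hG, hN⟩ := hN W' W Q' Q Φ' Φ τ h
  obtain ⟨-, -, -, -, -, -, hch⟩ := hN x hx
  have hsm : ∀ m, ContDiffOn ℝ ∞ (psq Q' a m) W' := (hSMQ W' Q' Φ' h.src).1.2.2.2.1 a
  have hsm2 : ∀ c, ContDiffOn ℝ ∞ (psq Q c p) W := fun c => (hSMQ W Q Φ h.tgt).1.2.2.2.1 c p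
  have dJ : ∀ i p, DifferentiableAt ℂ (fun y => Jfq τ y i p) x := fun i p =>
    (hJ i p).differentiableAt (hW.mem_nhds hx)
  have dG : ∀ a c, DifferentiableAt ℂ (fun y => Gbq τ y a c) x := fun a c =>
    (hG a c).differentiableAt (hW.mem_nhds hx)
  have dT : DifferentiableAt ℂ (fun y => Ttq τ y a p) x :=
    (hol_entry h _ _).differentiableAt (hW.mem_nhds hx)
  have dP : ∀ m, DifferentiableAt ℝ (psq Q' a m) x := fun m => wdiff_of hW (hsm m) hx
  have dC : ∀ c, DifferentiableAt ℝ (fun y => psq Q c p (τ y)) x := fun c =>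
    wdiff_of hW (smooth_comp h (hsm2 c)) hx
  have h1 := wcdb_congr_on hW hx hst (Fin.natAdd b i)
  rw [wcdb_sum _ fun m _ => (dP m).fun_mul (wdiff_holo (dJ m p)),
    wcdb_add (wdiff_holo dT) (DifferentiableAt.fun_sum fun c _ => (wdiff_holo (dG a c)).fun_mul (dC c)),
    wcdb_sum _ fun c _ => (wdiff_holo (dG a c)).fun_mul (dC c), wcdb_holo dT, zero_add] at h1
  rw [Finset.sum_congr rfl fun m _ => wcdb_mul (dP m) (wdiff_holo (dJ m p)) _] at h1
  rw [Finset.sum_congr rfl fun c _ => wcdb_mul (wdiff_holo (dG a c)) (dC c) _] at h1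
  simp only [wcdb_holo (dJ _ _), wcdb_holo (dG _ _), mul_zero, zero_add, add_zero] at h1
  rw [Finset.sum_congr rfl fun m _ => mul_comm (cdb (Fin.natAdd b i) (psq Q' a m) x) _, h1]
  refine Finset.sum_congr rfl fun c _ => ?_
  rw [((hch _ (hsm2 c)).1 i).2]

theorem d_star (hSMQ : S_SMQ) (hN : S_NATA) (h : MorQ W' W Q' Q Φ' Φ τ) (hx : x ∈ W')
    (a : Fin b) (l p : Fin k) :
    ∑ m, cd (Fin.natAdd b l) (psq Q' a m) x * Jfq τ x m p =
      Va Q' a (fun y => Jfq τ y l p) x +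
      ∑ c, Gbq τ x a c * ∑ r, Jfq τ x l r * cd (Fin.natAdd b r) (psq Q c p) (τ x) := by
  have hW := h.src.isOpen
  have hst := fun y (hy : y ∈ W') => congrFun (congrFun (star_eq hSMQ hN h hy) a) p
  simp only [Matrix.add_apply, Matrix.mul_apply, Psm_apply] at hst
  obtain ⟨hJ, hG, hN⟩ := hN W' W Q' Q Φ' Φ τ h
  obtain ⟨-, -, -, -, -, hG0, hch⟩ := hN x hx
  have hsm : ∀ m, ContDiffOn ℝ ∞ (psq Q' a m) W' := (hSMQ W' Q' Φ' h.src).1.2.2.2.1 a
  have hsm2 : ∀ c, ContDiffOn ℝ ∞ (psq Q c p) W := fun c => (hSMQ W Q Φ h.tgt).1.2.2.2.1 c p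
  have dJ : ∀ i p, DifferentiableAt ℂ (fun y => Jfq τ y i p) x := fun i p =>
    (hJ i p).differentiableAt (hW.mem_nhds hx)
  have dG : ∀ a c, DifferentiableAt ℂ (fun y => Gbq τ y a c) x := fun a c =>
    (hG a c).differentiableAt (hW.mem_nhds hx)
  have dT : DifferentiableAt ℂ (fun y => Ttq τ y a p) x :=
    (hol_entry h _ _).differentiableAt (hW.mem_nhds hx)
  have dP : ∀ m, DifferentiableAt ℝ (psq Q' a m) x := fun m => wdiff_of hW (hsm m) hx
  have dC : ∀ c, DifferentiableAt ℝ (fun y => psq Q c p (τ y)) x := fun c =>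
    wdiff_of hW (smooth_comp h (hsm2 c)) hx
  have h1 := wcd_congr_on hW hx hst (Fin.natAdd b l)
  rw [wcd_sum _ fun m _ => (dP m).fun_mul (wdiff_holo (dJ m p)),
    wcd_add (wdiff_holo dT) (DifferentiableAt.fun_sum fun c _ => (wdiff_holo (dG a c)).fun_mul (dC c)),
    wcd_sum _ fun c _ => (wdiff_holo (dG a c)).fun_mul (dC c)] at h1
  rw [Finset.sum_congr rfl fun m _ => wcd_mul (dP m) (wdiff_holo (dJ m p)) _] at h1
  rw [Finset.sum_congr rfl fun c _ => wcd_mul (wdiff_holo (dG a c)) (dC c) _] at h1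
  simp only [hG0, mul_zero, add_zero, Finset.sum_add_distrib] at h1
  have s1 : cd (Fin.natAdd b l) (fun y => Ttq τ y a p) x =
      cd (Fin.castAdd k a) (fun y => Jfq τ y l p) x := sym2 h hx _ _ _
  have s2 : ∀ m, cd (Fin.natAdd b l) (fun y => Jfq τ y m p) x =
      cd (Fin.natAdd b m) (fun y => Jfq τ y l p) x := fun m => sym2 h hx _ _ _
  simp only [s1, s2] at h1
  have h2 : ∀ c, cd (Fin.natAdd b l) (fun y => psq Q c p (τ y)) x =
      ∑ r, Jfq τ x l r * cd (Fin.natAdd b r) (psq Q c p) (τ x) :=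
    fun c => ((hch _ (hsm2 c)).1 l).1
  simp only [h2] at h1
  rw [Finset.sum_congr rfl fun m _ => mul_comm (cd (Fin.natAdd b l) (psq Q' a m) x) _]
  unfold Va
  linear_combination h1

/-- Derivative of the leaf metric along `conj V_a`. -/
theorem Vb_g (hSMQ : S_SMQ) (hN : S_NATA) (h : MorQ W' W Q' Q Φ' Φ τ) (hx : x ∈ W')
    (a : Fin b) (j l : Fin k) : Vb Q' a (fun y => gq Q' y j l) x =
      ∑ c, conj (Gbq τ x a c) * (∑ r, (∑ q, Jfq τ x j q * Vb Q c (fun y => gq Q y q r) (τ x)) *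
        conj (Jfq τ x l r)) +
      ∑ r, (∑ q, Jfq τ x j q * gq Q (τ x) q r) * conj (Va Q' a (fun y => Jfq τ y l r) x) := by
  have hW := h.src.isOpen
  have hVc := fun (f : Cn (b + k) → ℂ) (hf : ContDiffOn ℝ ∞ f W) => Vb_comp hSMQ hN h hx hf a
  obtain ⟨hJ, hG, hN⟩ := hN W' W Q' Q Φ' Φ τ h
  have hg : ∀ y ∈ W', gq Q' y j l =
      ∑ r, (∑ q, Jfq τ y j q * gq Q (τ y) q r) * conj (Jfq τ y l r) := by
    intro y hy
    rw [(hN y hy).2.2.1, Matrix.mul_apply]
    refine Finset.sum_congr rfl fun r _ => ?_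
    rw [Matrix.mul_apply, Matrix.conjTranspose_apply, ← starRingEnd_apply]
  have hgs : ∀ q r, ContDiffOn ℝ ∞ (fun y => gq Q y q r) W := fun q r =>
    ((hSMQ W Q Φ h.tgt).1.2.1 q r).1
  have dJ : ∀ i p, DifferentiableAt ℂ (fun y => Jfq τ y i p) x := fun i p =>
    (hJ i p).differentiableAt (hW.mem_nhds hx)
  have dC : ∀ q r, DifferentiableAt ℝ (fun y => gq Q (τ y) q r) x := fun q r =>
    wdiff_of hW (smooth_comp h (hgs q r)) hx
  have dS : ∀ r, DifferentiableAt ℝ (fun y => ∑ q, Jfq τ y j q * gq Q (τ y) q r) x := fun r =>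
    DifferentiableAt.fun_sum fun q _ => (wdiff_holo (dJ j q)).fun_mul (dC q r)
  have dJc : ∀ r, DifferentiableAt ℝ (fun y => conj (Jfq τ y l r)) x := fun r =>
    wdiff_conj (wdiff_holo (dJ l r))
  rw [Vb_congr_on hW hx hg, Vb_sum _ fun r _ => (dS r).fun_mul (dJc r),
    Finset.sum_congr rfl fun r _ => Vb_mul (dS r) (dJc r) a]
  have e1 : ∀ r, Vb Q' a (fun y => ∑ q, Jfq τ y j q * gq Q (τ y) q r) x =
      ∑ q, Jfq τ x j q * ∑ c, conj (Gbq τ x a c) * Vb Q c (fun y => gq Q y q r) (τ x) := by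
    intro r
    rw [Vb_sum _ fun q _ => (wdiff_holo (dJ j q)).fun_mul (dC q r)]
    refine Finset.sum_congr rfl fun q _ => ?_
    rw [Vb_mul (wdiff_holo (dJ j q)) (dC q r), Vb_holo (dJ j q), mul_zero, add_zero,
      hVc _ (hgs q r)]
  simp only [e1, Vb_conj (wdiff_holo (dJ l _))]
  rw [Finset.sum_add_distrib, add_comm]
  congr 1
  simp only [Finset.mul_sum, Finset.sum_mul]
  rw [Finset.sum_comm (f := fun c r => ∑ q, conj (Gbq τ x a c) * (Jfq τ x j q *
    Vb Q c (fun y => gq Q y q r) (τ x) * conj (Jfq τ x l r)))]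
  refine Finset.sum_congr rfl fun r _ => ?_
  rw [Finset.sum_comm]
  refine Finset.sum_congr rfl fun c _ => Finset.sum_congr rfl fun q _ => ?_
  ring

/-- The exact packet. -/
theorem natd (hSMQ : S_SMQ) (hN : S_NATA) : S_NATD := by
  intro b k W' W Q' Q Φ' Φ τ h x hx a
  have hb1 := fun i p => dbar_star hSMQ hN h hx a i p
  have hd1 := fun l p => d_star hSMQ hN h hx a l p
  have hV := fun j l => Vb_g hSMQ hN h hx a j l
  have hW := h.src.isOpen
  have dP : ∀ m, DifferentiableAt ℝ (psq Q' a m) x := fun m =>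
    wdiff_of hW ((hSMQ W' Q' Φ' h.src).1.2.2.2.1 a m) hx
  have dP2 : ∀ c m, DifferentiableAt ℝ (psq Q c m) (τ x) := fun c m =>
    wdiff_of h.tgt.isOpen ((hSMQ W Q Φ h.tgt).1.2.2.2.1 c m) (h.maps hx)
  obtain ⟨-, -, hN⟩ := hN W' W Q' Q Φ' Φ τ h
  obtain ⟨-, -, hg, -⟩ := hN x hx
  set J := Jfq τ x with hJd
  set G := Gbq τ x with hGd
  -- matrices of derivatives
  set D' : Matrix (Fin k) (Fin k) ℂ := Matrix.of fun i m => cdb (Fin.natAdd b i) (psq Q' a m) x
    with hD'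
  set E' : Matrix (Fin k) (Fin k) ℂ := Matrix.of fun l m => cd (Fin.natAdd b l) (psq Q' a m) x
    with hE'
  set D : Fin b → Matrix (Fin k) (Fin k) ℂ := fun c => Matrix.of fun r p =>
    cdb (Fin.natAdd b r) (psq Q c p) (τ x) with hD
  set E : Fin b → Matrix (Fin k) (Fin k) ℂ := fun c => Matrix.of fun r p =>
    cd (Fin.natAdd b r) (psq Q c p) (τ x) with hE
  set VJ : Matrix (Fin k) (Fin k) ℂ := Matrix.of fun l p => Va Q' a (fun y => Jfq τ y l p) x
    with hVJ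
  set VG : Fin b → Matrix (Fin k) (Fin k) ℂ := fun c => Matrix.of fun q r =>
    Vb Q c (fun y => gq Q y q r) (τ x) with hVG
  have m1 : D' * J = ∑ c, G a c • (J.map (starRingEnd ℂ) * D c) := by
    ext i p
    rw [Matrix.mul_apply, Matrix.sum_apply]
    have := hb1 i p
    refine this.trans (Finset.sum_congr rfl fun c _ => ?_)
    rw [Matrix.smul_apply, smul_eq_mul, Matrix.mul_apply]
    rfl
  have m2 : E' * J = VJ + ∑ c, G a c • (J * E c) := by
    ext l p
    rw [Matrix.mul_apply, Matrix.add_apply, Matrix.sum_apply]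
    have := hd1 l p
    refine this.trans (congrArg₂ _ rfl (Finset.sum_congr rfl fun c _ => ?_))
    rw [Matrix.smul_apply, smul_eq_mul, Matrix.mul_apply]
    rfl
  have hJm : (J.map (starRingEnd ℂ))ᴴ = Jᵀ := by
    ext i j
    simp [Matrix.conjTranspose_apply]
  have m1' : Jᴴ * D'ᴴ = ∑ c, conj (G a c) • ((D c)ᴴ * Jᵀ) := by
    rw [← Matrix.conjTranspose_mul, m1, Matrix.conjTranspose_sum]
    refine Finset.sum_congr rfl fun c _ => ?_
    rw [Matrix.conjTranspose_smul, Matrix.conjTranspose_mul, hJm]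
    rfl
  have m2' : Jᴴ * E'ᴴ = VJᴴ + ∑ c, conj (G a c) • ((E c)ᴴ * Jᴴ) := by
    rw [← Matrix.conjTranspose_mul, m2, Matrix.conjTranspose_add, Matrix.conjTranspose_sum]
    congr 1
    refine Finset.sum_congr rfl fun c _ => ?_
    rw [Matrix.conjTranspose_smul, Matrix.conjTranspose_mul]
    rfl
  have kK : KKq Q' a x = (Matrix.of fun j l => Vb Q' a (fun y => gq Q' y j l) x) -
      gq Q' x * E'ᴴ := by
    ext j l
    rw [Matrix.sub_apply, Matrix.mul_apply]
    unfold KKq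
    simp only [Matrix.of_apply]
    congr 1
    refine Finset.sum_congr rfl fun m _ => ?_
    rw [wcdb_conj (dP m), Matrix.conjTranspose_apply, ← starRingEnd_apply]
    rfl
  have kK2 : ∀ c, KKq Q c (τ x) = VG c - gq Q (τ x) * (E c)ᴴ := by
    intro c
    ext j l
    rw [Matrix.sub_apply, Matrix.mul_apply]
    unfold KKq
    simp only [Matrix.of_apply, hVG]
    congr 1
    refine Finset.sum_congr rfl fun m _ => ?_
    rw [wcdb_conj (dP2 c m), Matrix.conjTranspose_apply, ← starRingEnd_apply]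
    rfl
  have kA : AAq Q' a x = (gq Q' x * D'ᴴ)ᵀ := by
    ext i j
    rw [Matrix.transpose_apply, Matrix.mul_apply]
    unfold AAq
    simp only [Matrix.of_apply]
    refine Finset.sum_congr rfl fun m _ => ?_
    rw [wcd_conj (dP m), Matrix.conjTranspose_apply, ← starRingEnd_apply]
    rfl
  have kA2 : ∀ c, AAq Q c (τ x) = (gq Q (τ x) * (D c)ᴴ)ᵀ := by
    intro c
    ext i j
    rw [Matrix.transpose_apply, Matrix.mul_apply]
    unfold AAq
    simp only [Matrix.of_apply]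
    refine Finset.sum_congr rfl fun m _ => ?_
    rw [wcd_conj (dP2 c m), Matrix.conjTranspose_apply, ← starRingEnd_apply]
    rfl
  have mV : (Matrix.of fun j l => Vb Q' a (fun y => gq Q' y j l) x) =
      ∑ c, conj (G a c) • (J * VG c * Jᴴ) + J * gq Q (τ x) * VJᴴ := by
    ext j l
    rw [Matrix.of_apply, hV j l, Matrix.add_apply, Matrix.sum_apply]
    congr 1
  constructor
  · rw [kK, mV, hg]
    have e1 : J * gq Q (τ x) * Jᴴ * E'ᴴ =
        J * gq Q (τ x) * VJᴴ + ∑ c, conj (G a c) • (J * gq Q (τ x) * ((E c)ᴴ * Jᴴ)) := by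
      rw [Matrix.mul_assoc (J * gq Q (τ x)), m2', Matrix.mul_add, Matrix.mul_sum]
      congr 1
      exact Finset.sum_congr rfl fun c _ => Matrix.mul_smul _ _ _
    rw [e1, add_comm (∑ c, conj (G a c) • (J * VG c * Jᴴ)), add_sub_add_left_eq_sub,
      ← Finset.sum_sub_distrib]
    refine Finset.sum_congr rfl fun c _ => ?_
    rw [← smul_sub, kK2, Matrix.mul_sub, Matrix.sub_mul]
    congr 2
    simp only [Matrix.mul_assoc]
  · rw [kA, hg, Matrix.mul_assoc, m1', Matrix.mul_sum, Matrix.transpose_sum]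
    refine Finset.sum_congr rfl fun c _ => ?_
    rw [Matrix.mul_smul, Matrix.transpose_smul, kA2]
    congr 1
    rw [Matrix.transpose_mul, Matrix.transpose_mul, Matrix.transpose_mul, Matrix.transpose_mul,
      Matrix.transpose_transpose]
    simp only [Matrix.mul_assoc]

end natd

end Pool.Agent.Helper2.RK
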