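import Pool.Agent.Helper36.RK.GoalsG

/-! Packet UNI: uniqueness of translation invariant averages. -/

open MeasureTheory Filter Topology Set

namespace Pool.Agent.Helper2.RK

open Pool.Agent.Helper36.RK

variable {m : ℕ} {φ ψ f : (Fin m → ℝ) → ℝ}

theorem prod_int (hφ : WF φ) (hψ : WF ψ) (hf : Continuous f) (s : ℝ) :
    Integrable (fun p : (Fin m → ℝ) × (Fin m → ℝ) => ψ p.1 * (φ (p.2 - p.1) * f (s • p.2)))
      ((volume : Measure (Fin m → ℝ)).prod volume) := by
  have hφc : Continuous φ := hφ.1.continuous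
  have hψc : Continuous ψ := hψ.1.continuous
  refine Continuous.integrable_of_hasCompactSupport ?_ ?_
  · exact (hψc.comp continuous_fst).mul ((hφc.comp (continuous_snd.sub continuous_fst)).mul
      (hf.comp (continuous_snd.const_smul s)))
  · have hK : IsCompact ((fun p : (Fin m → ℝ) × (Fin m → ℝ) => (p.1, p.2 + p.1)) ''
        (tsupport ψ ×ˢ tsupport φ)) :=
      (hψ.2.isCompact.prod hφ.2.isCompact).image
        (continuous_fst.prodMk (continuous_snd.add continuous_fst))
    refine HasCompactSupport.intro hK ?_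
    rintro ⟨v, y⟩ hx
    by_cases h1 : v ∈ tsupport ψ
    · by_cases h2 : y - v ∈ tsupport φ
      · exact absurd ⟨(v, y - v), ⟨h1, h2⟩, by simp⟩ hx
      · simp only
        rw [image_eq_zero_of_notMem_tsupport h2, zero_mul, mul_zero]
    · simp only
      rw [image_eq_zero_of_notMem_tsupport h1, zero_mul]

theorem swap_eq (hφ : WF φ) (hψ : WF ψ) (hf : Continuous f) (s : ℝ) :
    ∫ v, ψ v * ∫ y, φ (y - v) * f (s • y) = ∫ v, φ v * ∫ y, ψ (y - v) * f (s • y) := by
  have e1 : ∀ (α β : (Fin m → ℝ) → ℝ), WF α → WF β → ∫ v, β v * ∫ y, α (y - v) * f (s • y) =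
      ∫ y, (∫ v, β v * α (y - v)) * f (s • y) := by
    intro α β hα hβ
    have h1 : ∫ v, β v * ∫ y, α (y - v) * f (s • y) =
        ∫ v, ∫ y, β v * (α (y - v) * f (s • y)) := by
      refine integral_congr_ae (Eventually.of_forall fun v => ?_)
      simp only
      rw [integral_const_mul]
    rw [h1, integral_integral_swap (f := fun v y => β v * (α (y - v) * f (s • y)))
      (prod_int hα hβ hf s)]
    refine integral_congr_ae (Eventually.of_forall fun y => ?_)
    simp only
    rw [← integral_mul_const]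
    refine integral_congr_ae (Eventually.of_forall fun v => ?_)
    simp only
    ring
  rw [e1 φ ψ hφ hψ, e1 ψ φ hψ hφ]
  refine integral_congr_ae (Eventually.of_forall fun y => ?_)
  simp only
  congr 1
  rw [← integral_sub_left_eq_self (fun v => φ v * ψ (y - v)) volume y]
  refine integral_congr_ae (Eventually.of_forall fun v => ?_)
  simp only [sub_sub_cancel]
  ring

theorem lim_one {K : ℝ} (hf : Continuous f) (hK : ∀ x, |f x| ≤ K) (hφ : WF φ) (hψ : WF ψ)
    (h : ∀ v : Fin m → ℝ, Tendsto (fun s : ℝ => (∫ y, φ (y - v) * f (s • y)) -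
      ∫ y, φ y * f (s • y)) atTop (𝓝 0)) :
    Tendsto (fun s : ℝ => (∫ v, ψ v * ∫ y, φ (y - v) * f (s • y)) -
      (∫ y, φ y * f (s • y)) * ∫ v, ψ v) atTop (𝓝 0) := by
  have hφc : Continuous φ := hφ.1.continuous
  have hψc : Continuous ψ := hψ.1.continuous
  have hφi : Integrable φ := hφc.integrable_of_hasCompactSupport hφ.2
  have hψi : Integrable ψ := hψc.integrable_of_hasCompactSupport hψ.2
  have hint : ∀ s : ℝ, Integrable (fun v => ψ v * ∫ y, φ (y - v) * f (s • y)) := by
    intro s
    have h1 := (prod_int hφ hψ hf s).integral_prod_left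
    refine h1.congr (Eventually.of_forall fun v => ?_)
    simp only
    rw [integral_const_mul]
  have e : ∀ s : ℝ, (∫ v, ψ v * ∫ y, φ (y - v) * f (s • y)) -
      (∫ y, φ y * f (s • y)) * ∫ v, ψ v =
      ∫ v, ψ v * ((∫ y, φ (y - v) * f (s • y)) - ∫ y, φ y * f (s • y)) := by
    intro s
    rw [← integral_const_mul, ← integral_sub (hint s) (hψi.const_mul _)]
    refine integral_congr_ae (Eventually.of_forall fun v => ?_)
    simp only
    ring
  have hb : ∀ (s : ℝ) (v : Fin m → ℝ), |∫ y, φ (y - v) * f (s • y)| ≤ K * ∫ y, |φ y| := by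
    intro s v
    have h1 : ∫ y, |φ y| = ∫ y, |φ (y - v)| :=
      (integral_sub_right_eq_self (fun y => |φ y|) v).symm
    rw [h1, ← integral_const_mul, ← Real.norm_eq_abs]
    refine norm_integral_le_of_norm_le ((hφi.abs.comp_sub_right v).const_mul K)
      (Eventually.of_forall fun y => ?_)
    rw [norm_mul, Real.norm_eq_abs, Real.norm_eq_abs, mul_comm]
    exact mul_le_mul_of_nonneg_right (hK _) (abs_nonneg _)
  simp only [e]
  have h0 : (0 : ℝ) = ∫ v : Fin m → ℝ, (0 : ℝ) := by simp
  rw [h0]
  refine tendsto_integral_filter_of_dominated_convergence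
    (fun v => |ψ v| * (2 * (K * ∫ y, |φ y|))) ?_ ?_ (hψi.abs.mul_const _) ?_
  · refine Eventually.of_forall fun s => ?_
    have h1 : (fun v => ψ v * ((∫ y, φ (y - v) * f (s • y)) - ∫ y, φ y * f (s • y))) =
        fun v => ψ v * (∫ y, φ (y - v) * f (s • y)) - ψ v * ∫ y, φ y * f (s • y) := by
      funext v; ring
    rw [h1]
    exact (hint s).aestronglyMeasurable.sub (hψi.mul_const _).aestronglyMeasurable
  · refine Eventually.of_forall fun s => Eventually.of_forall fun v => ?_
    rw [norm_mul, Real.norm_eq_abs, Real.norm_eq_abs]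
    refine mul_le_mul_of_nonneg_left ?_ (abs_nonneg _)
    have h1 := hb s v
    have h2 := hb s 0
    simp only [sub_zero] at h2
    have h3 := abs_sub (∫ y, φ (y - v) * f (s • y)) (∫ y, φ y * f (s • y))
    linarith
  · refine Eventually.of_forall fun v => ?_
    have := (h v).const_mul (ψ v)
    rwa [mul_zero] at this

/-- The exact packet. -/
theorem uni : S_UNI := by
  intro m f K hf hK h φ ψ hφ hψ
  have h1 := lim_one hf hK hφ hψ (h φ hφ)
  have h2 := lim_one hf hK hψ hφ (h ψ hψ)
  have h3 := h2.sub h1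
  rw [sub_zero] at h3
  refine h3.congr fun s => ?_
  rw [swap_eq hφ hψ hf s]
  ring

end Pool.Agent.Helper2.RK
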